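import Mathlib

/-!
The exact order of magnitude of `r(n, 2)`, the least positive gap between two sums of two square
roots of positive integers `≤ n`: `r(n, 2) = Θ(n^(-7/2))`.

Lower bound: norms.  Upper bound: for `s² = 48 m² + 33` with `m, s` odd, the integers
`a = (13 m - s)/2`, `b = (13 m + s)/2`, `c = 6 m - 3`, `d = 6 m + 3` satisfy
`N(√a + √b - √c - √d) = 9`.
-/

namespace Pool.Agent.Lib.MP_ac385c_lc.SharpOrderTwo

/-- `S(a) = ∑ i, √(a i)`. -/
noncomputable def S {k : ℕ} (a : Fin k → ℕ) : ℝ := ∑ i, √(a i : ℝ)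

/-- The set of all nonzero gaps `|S(a) - S(b)|` with `a, b ∈ {1, …, n}^k`, `S(a) ≠ S(b)`. -/
def gaps (n k : ℕ) : Set ℝ :=
  {x | ∃ a b : Fin k → ℕ, (∀ i, 1 ≤ a i ∧ a i ≤ n) ∧ (∀ i, 1 ≤ b i ∧ b i ≤ n) ∧
    S a ≠ S b ∧ x = |S a - S b|}

/-- `r(n, k)`, the least nonzero gap. -/
noncomputable def r (n k : ℕ) : ℝ := sInf (gaps n k)

lemma gaps_bddBelow (n k : ℕ) : BddBelow (gaps n k) := by
  refine ⟨0, ?_⟩
  rintro x ⟨a, b, -, -, -, rfl⟩
  exact abs_nonneg _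

/-- The lower bound for one quadruple. -/
lemma lower {n a b c d : ℕ} (ha : 1 ≤ a ∧ a ≤ n) (hb : 1 ≤ b ∧ b ≤ n) (hc : 1 ≤ c ∧ c ≤ n)
    (hd : 1 ≤ d ∧ d ≤ n) (h : √(a : ℝ) + √(b : ℝ) ≠ √(c : ℝ) + √(d : ℝ)) :
    1 / (384 * ((n : ℝ) ^ 3 * √(n : ℝ))) ≤ |√(a : ℝ) + √(b : ℝ) - (√(c : ℝ) + √(d : ℝ))| := by
  have hn1 : (1 : ℝ) ≤ n := by exact_mod_cast ha.1.trans ha.2
  have hn0 : (0 : ℝ) < n := by linarith
  have ca : (1 : ℝ) ≤ a ∧ (a : ℝ) ≤ n := ⟨by exact_mod_cast ha.1, by exact_mod_cast ha.2⟩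
  have cb : (1 : ℝ) ≤ b ∧ (b : ℝ) ≤ n := ⟨by exact_mod_cast hb.1, by exact_mod_cast hb.2⟩
  have cc : (1 : ℝ) ≤ c ∧ (c : ℝ) ≤ n := ⟨by exact_mod_cast hc.1, by exact_mod_cast hc.2⟩
  have cd : (1 : ℝ) ≤ d ∧ (d : ℝ) ≤ n := ⟨by exact_mod_cast hd.1, by exact_mod_cast hd.2⟩
  set A := √(a : ℝ) with hA
  set B := √(b : ℝ) with hB
  set C := √(c : ℝ) with hC
  set D := √(d : ℝ) with hD
  set R := √(n : ℝ) with hR
  have A2 : A ^ 2 = a := Real.sq_sqrt (by linarith)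
  have B2 : B ^ 2 = b := Real.sq_sqrt (by linarith)
  have C2 : C ^ 2 = c := Real.sq_sqrt (by linarith)
  have D2 : D ^ 2 = d := Real.sq_sqrt (by linarith)
  have R2 : R ^ 2 = n := Real.sq_sqrt (by linarith)
  have A1 : 1 ≤ A := Real.one_le_sqrt.2 ca.1
  have B1 : 1 ≤ B := Real.one_le_sqrt.2 cb.1
  have C1 : 1 ≤ C := Real.one_le_sqrt.2 cc.1
  have D1 : 1 ≤ D := Real.one_le_sqrt.2 cd.1
  have R1 : 1 ≤ R := Real.one_le_sqrt.2 hn1
  have AR : A ≤ R := Real.sqrt_le_sqrt ca.2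
  have BR : B ≤ R := Real.sqrt_le_sqrt cb.2
  have CR : C ≤ R := Real.sqrt_le_sqrt cc.2
  have DR : D ≤ R := Real.sqrt_le_sqrt cd.2
  set Δ := A + B - (C + D) with hΔ
  have hΔ0 : Δ ≠ 0 := sub_ne_zero.2 h
  have habs : 0 < |Δ| := abs_pos.2 hΔ0
  -- integer data
  set mz : ℤ := (a : ℤ) + b - c - d with hmz
  set Xz : ℤ := mz ^ 2 + 4 * (a * b) - 4 * (c * d) with hXz
  set Nz : ℤ := Xz ^ 2 - 16 * mz ^ 2 * (a * b) with hNz
  set m : ℝ := (a : ℝ) + b - c - d with hm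
  set X : ℝ := m ^ 2 + 4 * (a * b) - 4 * (c * d) with hX
  set N : ℝ := X ^ 2 - 16 * m ^ 2 * (a * b) with hN
  have em : (mz : ℝ) = m := by rw [hmz, hm]; push_cast; ring
  have eX : (Xz : ℝ) = X := by rw [hXz, hX, ← em]; push_cast; ring
  have eN : (Nz : ℝ) = N := by rw [hNz, hN, ← eX, ← em]; push_cast; ring
  have hp : (A * B) ^ 2 = a * b := by rw [mul_pow, A2, B2]
  have hq : (C * D) ^ 2 = c * d := by rw [mul_pow, C2, D2]
  have hp1 : 1 ≤ A * B := one_le_mul_of_one_le_of_one_le A1 B1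
  have hq1 : 1 ≤ C * D := one_le_mul_of_one_le_of_one_le C1 D1
  have hRR : R * R = n := by rw [← R2]; ring
  have hpn : A * B ≤ n := by
    rw [← hRR]; exact mul_le_mul AR BR (by linarith) (by linarith)
  have hqn : C * D ≤ n := by
    rw [← hRR]; exact mul_le_mul CR DR (by linarith) (by linarith)
  have hmabs : |m| ≤ 2 * n := by rw [abs_le]; constructor <;> linarith
  -- the three factors
  set P := A + B + (C + D) with hP
  set W := m + 2 * (A * B) + 2 * (C * D) with hW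
  set Y := m + 2 * (A * B) - 2 * (C * D) with hY
  set Z := X + 4 * m * (A * B) with hZ
  set V := X - 4 * m * (A * B) with hV
  have fY : Δ * P = Y := by
    have : Δ * P = (A ^ 2 + B ^ 2 - C ^ 2 - D ^ 2) + 2 * (A * B) - 2 * (C * D) := by
      rw [hΔ, hP]; ring
    rw [this, A2, B2, C2, D2, hY, hm]
  have fZ : Y * W = Z := by
    have : Y * W = m ^ 2 + 4 * m * (A * B) + 4 * (A * B) ^ 2 - 4 * (C * D) ^ 2 := by
      rw [hY, hW]; ring
    rw [this, hp, hq, hZ, hX]; ring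
  have fN : Z * V = N := by
    have : Z * V = X ^ 2 - 16 * m ^ 2 * (A * B) ^ 2 := by rw [hZ, hV]; ring
    rw [this, hp, hN]
  have P0 : 0 < P := by rw [hP]; linarith
  have PR : P ≤ 4 * R := by rw [hP]; linarith
  have WR : |W| ≤ 6 * n := by
    rw [hW]
    calc |m + 2 * (A * B) + 2 * (C * D)| ≤ |m| + |2 * (A * B)| + |2 * (C * D)| := abs_add_three _ _ _
      _ ≤ 2 * n + 2 * n + 2 * n := by
          rw [abs_of_nonneg (show 0 ≤ 2 * (A * B) by linarith),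
            abs_of_nonneg (show 0 ≤ 2 * (C * D) by linarith)]
          linarith
      _ = 6 * n := by ring
  have m2 : m ^ 2 ≤ 4 * n ^ 2 := by
    have := sq_le_sq' (abs_le.1 hmabs).1 (abs_le.1 hmabs).2
    have e : (2 * (n : ℝ)) ^ 2 = 4 * n ^ 2 := by ring
    rwa [e] at this
  have hab0 : (0 : ℝ) ≤ a * b := mul_nonneg (by linarith) (by linarith)
  have hcd0 : (0 : ℝ) ≤ c * d := mul_nonneg (by linarith) (by linarith)
  have habn : (a : ℝ) * b ≤ n ^ 2 := by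
    rw [sq]; exact mul_le_mul ca.2 cb.2 (by linarith) (by linarith)
  have hcdn : (c : ℝ) * d ≤ n ^ 2 := by
    rw [sq]; exact mul_le_mul cc.2 cd.2 (by linarith) (by linarith)
  have hm20 : 0 ≤ m ^ 2 := sq_nonneg m
  have hXabs : |X| ≤ 8 * n ^ 2 := by
    rw [abs_le, hX]
    constructor
    · linarith
    · linarith
  have hmp : |4 * m * (A * B)| ≤ 8 * n ^ 2 := by
    rw [abs_mul, abs_mul, abs_of_nonneg (show (0 : ℝ) ≤ 4 by norm_num),
      abs_of_nonneg (show 0 ≤ A * B by linarith)]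
    have := mul_le_mul hmabs hpn (by linarith) (by linarith)
    have e : 4 * |m| * (A * B) = 4 * (|m| * (A * B)) := by ring
    have e' : 8 * (n : ℝ) ^ 2 = 4 * (2 * n * n) := by ring
    rw [e, e']
    linarith
  have VR : |V| ≤ 16 * n ^ 2 := by
    rw [hV]
    have := abs_sub X (4 * m * (A * B))
    linarith
  -- main inequality: `1 ≤ |Δ| * 384 n³ √n`
  have key : 1 ≤ |Δ| * (384 * ((n : ℝ) ^ 3 * R)) := by
    have hn2 : (1 : ℝ) ≤ n ^ 2 := one_le_pow₀ hn1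
    by_cases hN0 : Nz = 0
    · have hN0' : Z * V = 0 := by rw [fN, ← eN, hN0]; simp
      by_cases hZ0 : Z = 0
      · -- then `W = 0`
        have hY0 : Y ≠ 0 := by rw [← fY]; exact mul_ne_zero hΔ0 P0.ne'
        have hW0 : W = 0 := by
          have : Y * W = 0 := by rw [fZ, hZ0]
          exact (mul_eq_zero.1 this).resolve_left hY0
        have hYv : Y = - (4 * (C * D)) := by
          have : Y = W - 4 * (C * D) := by rw [hY, hW]; ring
          rw [this, hW0]; ring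
        have h4 : 4 ≤ |Δ| * P := by
          rw [← abs_of_pos P0, ← abs_mul, fY, hYv, abs_neg, abs_of_nonneg (by linarith)]
          linarith
        have h5 : |Δ| * P ≤ |Δ| * (4 * R) := mul_le_mul_of_nonneg_left PR habs.le
        have h6 : (4 : ℝ) * R ≤ 384 * ((n : ℝ) ^ 3 * R) := by
          have h3 : (1 : ℝ) ≤ n ^ 3 := one_le_pow₀ hn1
          have h3' : 1 * R ≤ (n : ℝ) ^ 3 * R := mul_le_mul_of_nonneg_right h3 (by linarith)
          linarith
        have h7 := mul_le_mul_of_nonneg_left h6 habs.le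
        linarith
      · have hV0 : V = 0 := (mul_eq_zero.1 hN0').resolve_left hZ0
        have hZX : Z = 2 * X := by
          have : Z = 2 * X - V := by rw [hZ, hV]; ring
          rw [this, hV0]; ring
        have hX0 : Xz ≠ 0 := by
          intro h0
          apply hZ0
          rw [hZX, ← eX, h0]; simp
        have hX1 : (1 : ℝ) ≤ |X| := by
          rw [← eX, ← Int.cast_abs]
          exact_mod_cast Int.one_le_abs hX0
        have h2 : 2 ≤ |Δ| * P * |W| := by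
          rw [← abs_of_pos P0, ← abs_mul, fY, ← abs_mul, fZ, hZX, abs_mul]
          rw [abs_of_nonneg (show (0 : ℝ) ≤ 2 by norm_num)]
          linarith
        have h3 : |Δ| * P * |W| ≤ |Δ| * (4 * R) * (6 * n) := by
          apply mul_le_mul (mul_le_mul_of_nonneg_left PR habs.le) WR (abs_nonneg _)
          positivity
        have h6 : (4 * R) * (6 * n) ≤ 384 * ((n : ℝ) ^ 3 * R) := by
          have e : 384 * ((n : ℝ) ^ 3 * R) = (4 * R) * (6 * n) * (16 * n ^ 2) := by ring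
          rw [e]
          have h0 : (0 : ℝ) ≤ (4 * R) * (6 * n) := by positivity
          have h1 : (4 * R) * (6 * n) * 1 ≤ (4 * R) * (6 * n) * (16 * n ^ 2) :=
            mul_le_mul_of_nonneg_left (by linarith) h0
          linarith
        have h7 := mul_le_mul_of_nonneg_left h6 habs.le
        have e7 : |Δ| * (4 * R) * (6 * n) = |Δ| * ((4 * R) * (6 * n)) := by ring
        linarith
    · have hN1 : (1 : ℝ) ≤ |N| := by
        rw [← eN, ← Int.cast_abs]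
        exact_mod_cast Int.one_le_abs hN0
      have h1 : |Δ| * P * |W| * |V| = |N| := by
        rw [← abs_of_pos P0, ← abs_mul, fY, ← abs_mul, fZ, ← abs_mul, fN]
      have h3 : |Δ| * P * |W| * |V| ≤ |Δ| * (4 * R) * (6 * n) * (16 * n ^ 2) := by
        apply mul_le_mul _ VR (abs_nonneg _) (by positivity)
        apply mul_le_mul (mul_le_mul_of_nonneg_left PR habs.le) WR (abs_nonneg _)
        positivity
      have e : |Δ| * (4 * R) * (6 * n) * (16 * n ^ 2) = |Δ| * (384 * ((n : ℝ) ^ 3 * R)) := by ring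
      linarith
  rw [div_le_iff₀ (by positivity)]
  exact key

/-- The upper bound from one solution of the Pell-type equation. -/
lemma upper {m s : ℤ} (hm : 1 ≤ m) (hs : 0 < s) (hpell : s ^ 2 = 48 * m ^ 2 + 33)
    {a b : ℤ} (ha : 2 * a = 13 * m - s) (hb : 2 * b = 13 * m + s) :
    (1 ≤ a ∧ 1 ≤ b ∧ a ≤ 11 * m ∧ b ≤ 11 * m) ∧
    √(a : ℝ) + √(b : ℝ) ≠ √((6 * m - 3 : ℤ) : ℝ) + √((6 * m + 3 : ℤ) : ℝ) ∧
    |√(a : ℝ) + √(b : ℝ) - (√((6 * m - 3 : ℤ) : ℝ) + √((6 * m + 3 : ℤ) : ℝ))| ≤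
      1 / ((m : ℝ) ^ 3 * √(m : ℝ)) := by
  have hs9 : s ≤ 9 * m := by nlinarith
  have hbounds : 1 ≤ a ∧ 1 ≤ b ∧ a ≤ 11 * m ∧ b ≤ 11 * m := by
    refine ⟨?_, ?_, ?_, ?_⟩ <;> linarith
  refine ⟨hbounds, ?_⟩
  have cm : (1 : ℝ) ≤ m := by exact_mod_cast hm
  have cs9 : (s : ℝ) ≤ 9 * m := by exact_mod_cast hs9
  have cs0 : (0 : ℝ) < s := by exact_mod_cast hs
  have cp : (s : ℝ) ^ 2 = 48 * m ^ 2 + 33 := by exact_mod_cast hpell
  have ca : 2 * (a : ℝ) = 13 * m - s := by exact_mod_cast ha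
  have cb : 2 * (b : ℝ) = 13 * m + s := by exact_mod_cast hb
  have e1 : ((6 * m - 3 : ℤ) : ℝ) = 6 * m - 3 := by push_cast; ring
  have e2 : ((6 * m + 3 : ℤ) : ℝ) = 6 * m + 3 := by push_cast; ring
  rw [e1, e2]
  set A := √(a : ℝ) with hA
  set B := √(b : ℝ) with hB
  set C := √(6 * (m : ℝ) - 3) with hC
  set D := √(6 * (m : ℝ) + 3) with hD
  set R := √(m : ℝ) with hR
  have A2 : A ^ 2 = a := Real.sq_sqrt (by linarith)
  have B2 : B ^ 2 = b := Real.sq_sqrt (by linarith)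
  have C2 : C ^ 2 = 6 * m - 3 := Real.sq_sqrt (by linarith)
  have D2 : D ^ 2 = 6 * m + 3 := Real.sq_sqrt (by linarith)
  have R2 : R ^ 2 = m := Real.sq_sqrt (by linarith)
  have A0 : 0 ≤ A := Real.sqrt_nonneg _
  have B0 : 0 ≤ B := Real.sqrt_nonneg _
  have C0 : 0 ≤ C := Real.sqrt_nonneg _
  have D0 : 0 ≤ D := Real.sqrt_nonneg _
  have R0 : 0 < R := Real.sqrt_pos.2 (by linarith)
  have hab : 4 * ((a : ℝ) * b) = 121 * m ^ 2 - 33 := by
    have : 4 * ((a : ℝ) * b) = (2 * a) * (2 * b) := by ring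
    rw [this, ca, cb]
    have : (13 * (m : ℝ) - s) * (13 * m + s) = 169 * m ^ 2 - s ^ 2 := by ring
    rw [this, cp]; ring
  have hp : (A * B) ^ 2 = a * b := by rw [mul_pow, A2, B2]
  have hq : (C * D) ^ 2 = 36 * m ^ 2 - 9 := by rw [mul_pow, C2, D2]; ring
  have hp0 : 0 ≤ A * B := mul_nonneg A0 B0
  have hq0 : 0 ≤ C * D := mul_nonneg C0 D0
  have hm2 : (1 : ℝ) ≤ m ^ 2 := one_le_pow₀ cm
  set Δ := A + B - (C + D) with hΔ
  set P := A + B + (C + D) with hP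
  set W := (m : ℝ) + 2 * (A * B) + 2 * (C * D) with hW
  set U := 22 * (m : ℝ) ^ 2 - 3 + 4 * m * (A * B) with hU
  have fN : Δ * P * W * U = -9 := by
    have f1 : Δ * P = m + 2 * (A * B) - 2 * (C * D) := by
      have : Δ * P = (A ^ 2 + B ^ 2 - C ^ 2 - D ^ 2) + 2 * (A * B) - 2 * (C * D) := by
        rw [hΔ, hP]; ring
      rw [this, A2, B2, C2, D2]
      have : (a : ℝ) + b = 13 * m := by linarith
      linear_combination this
    have f2 : Δ * P * W = m ^ 2 + 4 * m * (A * B) + 4 * (A * B) ^ 2 - 4 * (C * D) ^ 2 := by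
      rw [f1, hW]; ring
    have f3 : Δ * P * W = -(22 * (m : ℝ) ^ 2 - 3) + 4 * m * (A * B) := by
      rw [f2, hp, hq]; linear_combination hab
    rw [f3, hU]
    have : (-(22 * (m : ℝ) ^ 2 - 3) + 4 * m * (A * B)) * (22 * (m : ℝ) ^ 2 - 3 + 4 * m * (A * B))
        = 16 * m ^ 2 * (A * B) ^ 2 - (22 * (m : ℝ) ^ 2 - 3) ^ 2 := by ring
    rw [this, hp]
    linear_combination 4 * (m : ℝ) ^ 2 * hab
  have hpm : 4 * (m : ℝ) ≤ A * B := by
    have : (4 * (m : ℝ)) ^ 2 ≤ (A * B) ^ 2 := by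
      rw [hp]
      have e : (4 * (m : ℝ)) ^ 2 = 16 * m ^ 2 := by ring
      rw [e]; linarith
    exact (pow_le_pow_iff_left₀ (by linarith) hp0 (by norm_num)).1 this
  have hqm : 5 * (m : ℝ) ≤ C * D := by
    have : (5 * (m : ℝ)) ^ 2 ≤ (C * D) ^ 2 := by
      rw [hq]
      have e : (5 * (m : ℝ)) ^ 2 = 25 * m ^ 2 := by ring
      rw [e]; linarith
    exact (pow_le_pow_iff_left₀ (by linarith) hq0 (by norm_num)).1 this
  have hPR : R ≤ P := by
    have : R ≤ D := Real.sqrt_le_sqrt (by linarith)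
    rw [hP]; linarith
  have hWm : 9 * (m : ℝ) ≤ W := by rw [hW]; linarith
  have hUm : (m : ℝ) ^ 2 ≤ U := by
    have h0 : 0 ≤ 4 * (m : ℝ) * (A * B) := mul_nonneg (by linarith) hp0
    rw [hU]; linarith
  have P0 : 0 < P := lt_of_lt_of_le R0 hPR
  have W0 : 0 < W := by linarith
  have U0 : 0 < U := by linarith
  constructor
  · intro h
    have hz : Δ = 0 := sub_eq_zero.2 h
    rw [hz] at fN
    norm_num at fN
  · have habs : |Δ| * (P * W * U) = 9 := by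
      rw [← abs_of_pos (show 0 < P * W * U by positivity), ← abs_mul]
      have : Δ * (P * W * U) = -9 := by rw [← fN]; ring
      rw [this]; norm_num
    have hprod : 9 * ((m : ℝ) ^ 3 * R) ≤ P * W * U := by
      calc 9 * ((m : ℝ) ^ 3 * R) = R * (9 * m) * m ^ 2 := by ring
        _ ≤ P * W * U := by
            apply mul_le_mul _ hUm (by positivity) (by positivity)
            exact mul_le_mul hPR hWm (by linarith) P0.le
    rw [le_div_iff₀ (by positivity)]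
    have h1 := mul_le_mul_of_nonneg_left hprod (abs_nonneg Δ)
    have e3 : |Δ| * (9 * ((m : ℝ) ^ 3 * R)) = 9 * (|Δ| * ((m : ℝ) ^ 3 * R)) := by ring
    linarith

/-- Solutions of the Pell-type equation: `(s, m) ↦ (97 s + 672 m, 14 s + 97 m)`. -/
def pell : ℕ → ℤ × ℤ
  | 0 => (9, 1)
  | j + 1 => (97 * (pell j).1 + 672 * (pell j).2, 14 * (pell j).1 + 97 * (pell j).2)

lemma pell_spec (j : ℕ) : 0 < (pell j).1 ∧ 1 ≤ (pell j).2 ∧
    (pell j).1 ^ 2 = 48 * (pell j).2 ^ 2 + 33 ∧ (∃ u, (pell j).1 = 2 * u + 1) ∧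
      ∃ v, (pell j).2 = 2 * v + 1 := by
  induction j with
  | zero => exact ⟨by simp [pell], by simp [pell], by simp [pell], ⟨4, by simp [pell]⟩,
      ⟨0, by simp [pell]⟩⟩
  | succ j ih =>
    obtain ⟨h1, h2, h3, ⟨u, hu⟩, ⟨v, hv⟩⟩ := ih
    simp only [pell]
    refine ⟨by linarith, by linarith, by nlinarith, ⟨97 * u + 48 + 336 * (pell j).2, ?_⟩,
      ⟨7 * (pell j).1 + 97 * v + 48, ?_⟩⟩
    · rw [hu]; ring
    · rw [hv]; ring

lemma pell_step (j : ℕ) : (pell (j + 1)).2 ≤ 223 * (pell j).2 := by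
  obtain ⟨h1, h2, h3, -, -⟩ := pell_spec j
  have : (pell j).1 ≤ 9 * (pell j).2 := by nlinarith
  simp only [pell]
  linarith

lemma pell_grow (j : ℕ) : (j : ℤ) + 1 ≤ (pell j).2 := by
  induction j with
  | zero => simp [pell]
  | succ j ih =>
    obtain ⟨h1, h2, -, -, -⟩ := pell_spec j
    simp only [pell]
    push_cast
    linarith

/-- Every `n ≥ 11` is within a bounded factor of a member of the family. -/
lemma exists_pell {n : ℕ} (hn : 11 ≤ n) : ∃ j, 11 * (pell j).2 ≤ n ∧ (n : ℤ) < 2453 * (pell j).2 := by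
  classical
  have hex : ∃ j, (n : ℤ) < 11 * (pell j).2 := ⟨n, by have := pell_grow n; linarith⟩
  set j := Nat.find hex with hj
  have hj1 : (n : ℤ) < 11 * (pell j).2 := Nat.find_spec hex
  have hj0 : j ≠ 0 := by
    intro h0
    rw [h0] at hj1
    simp only [pell] at hj1
    omega
  obtain ⟨i, hi⟩ := Nat.exists_eq_succ_of_ne_zero hj0
  have hmin := Nat.find_min hex (m := i) (by omega)
  push Not at hmin
  refine ⟨i, hmin, ?_⟩
  have := pell_step i
  rw [hi] at hj1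
  have h2 : (pell (Nat.succ i)).2 = (pell (i + 1)).2 := rfl
  rw [h2] at hj1
  linarith

lemma mem_gaps {n a b c d : ℕ} (ha : 1 ≤ a ∧ a ≤ n) (hb : 1 ≤ b ∧ b ≤ n) (hc : 1 ≤ c ∧ c ≤ n)
    (hd : 1 ≤ d ∧ d ≤ n) (h : √(a : ℝ) + √(b : ℝ) ≠ √(c : ℝ) + √(d : ℝ)) :
    |√(a : ℝ) + √(b : ℝ) - (√(c : ℝ) + √(d : ℝ))| ∈ gaps n 2 := by
  refine ⟨![a, b], ![c, d], ?_, ?_, ?_, ?_⟩
  · intro i; fin_cases i
    · exact ha
    · exact hb
  · intro i; fin_cases i
    · exact hc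
    · exact hd
  · simpa [S, Fin.sum_univ_two] using h
  · simp [S, Fin.sum_univ_two]

/-- **The exact order of `r(n, 2)`**: there are positive constants `c, C` with
`c n^(-7/2) ≤ r(n, 2) ≤ C n^(-7/2)` for all `n ≥ 2`. -/
theorem result : ∃ c C : ℝ, 0 < c ∧ 0 < C ∧ ∀ n : ℕ, 2 ≤ n →
    c * (n : ℝ) ^ (-(7 / 2) : ℝ) ≤ r n 2 ∧ r n 2 ≤ C * (n : ℝ) ^ (-(7 / 2) : ℝ) := by
  refine ⟨1 / 384, 2453 ^ 4, by norm_num, by norm_num, fun n hn => ?_⟩
  have hn2 : (2 : ℝ) ≤ n := by exact_mod_cast hn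
  have hn0 : (0 : ℝ) < n := by linarith
  have hpow : (n : ℝ) ^ (-(7 / 2) : ℝ) = 1 / ((n : ℝ) ^ 3 * √(n : ℝ)) := by
    rw [Real.rpow_neg hn0.le, show (7 / 2 : ℝ) = (3 : ℕ) + 1 / 2 by norm_num,
      Real.rpow_add hn0, Real.rpow_natCast, ← Real.sqrt_eq_rpow, one_div]
  rw [hpow]
  have hsqrt0 : 0 < √(n : ℝ) := Real.sqrt_pos.2 hn0
  -- a simple member of the set of gaps
  have hsimple : |√((1 : ℕ) : ℝ) + √((1 : ℕ) : ℝ) - (√((1 : ℕ) : ℝ) + √((2 : ℕ) : ℝ))| ∈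
      gaps n 2 := by
    refine mem_gaps ⟨le_rfl, by omega⟩ ⟨le_rfl, by omega⟩ ⟨le_rfl, by omega⟩ ⟨by omega, hn⟩ ?_
    intro h
    have h1 : √((1 : ℕ) : ℝ) = √((2 : ℕ) : ℝ) := by linarith
    have := (Real.sqrt_inj (by norm_num) (by norm_num)).1 h1
    norm_num at this
  constructor
  · refine le_csInf ⟨_, hsimple⟩ ?_
    rintro x ⟨a, b, ha, hb, hab, rfl⟩
    have h := lower (ha 0) (ha 1) (hb 0) (hb 1) (by simpa [S, Fin.sum_univ_two] using hab)
    simp only [S, Fin.sum_univ_two]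
    refine le_trans (le_of_eq ?_) h
    field_simp
  · rcases lt_or_ge n 11 with hlt | hge
    · have h1 : r n 2 ≤ _ := csInf_le (gaps_bddBelow n 2) hsimple
      refine h1.trans ?_
      have hs2 : √((2 : ℕ) : ℝ) ≤ 2 := by
        rw [Real.sqrt_le_left (by norm_num)]; norm_num
      have hs1 : √((1 : ℕ) : ℝ) = 1 := by norm_num
      have hs2' : 0 ≤ √((2 : ℕ) : ℝ) := Real.sqrt_nonneg _
      have hle1 : |√((1 : ℕ) : ℝ) + √((1 : ℕ) : ℝ) - (√((1 : ℕ) : ℝ) + √((2 : ℕ) : ℝ))| ≤ 1 := by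
        rw [hs1, abs_le]; constructor <;> linarith
      refine hle1.trans ?_
      have hn11 : (n : ℝ) ≤ 11 := by exact_mod_cast hlt.le
      have hsn : √(n : ℝ) ≤ 11 := by
        rw [Real.sqrt_le_left (by norm_num)]; nlinarith
      have hprod : (n : ℝ) ^ 3 * √(n : ℝ) ≤ 11 ^ 3 * 11 := by
        apply mul_le_mul _ hsn hsqrt0.le (by norm_num)
        exact pow_le_pow_left₀ hn0.le hn11 3
      rw [mul_one_div, le_div_iff₀ (by positivity)]
      linarith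
    · obtain ⟨j, hj1, hj2⟩ := exists_pell hge
      obtain ⟨hs, hm, hp, ⟨u, hu⟩, ⟨v, hv⟩⟩ := pell_spec j
      set s := (pell j).1 with hs_def
      set m := (pell j).2 with hm_def
      obtain ⟨⟨a1, b1, a11, b11⟩, hne, hle⟩ := upper (m := m) (s := s)
        (a := 13 * v - u + 6) (b := 13 * v + u + 7) hm hs hp
        (by rw [hu, hv]; ring) (by rw [hu, hv]; ring)
      -- pass to natural numbers
      obtain ⟨a, ha⟩ := Int.eq_ofNat_of_zero_le (show 0 ≤ 13 * v - u + 6 by linarith)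
      obtain ⟨b, hb⟩ := Int.eq_ofNat_of_zero_le (show 0 ≤ 13 * v + u + 7 by linarith)
      obtain ⟨c, hc⟩ := Int.eq_ofNat_of_zero_le (show 0 ≤ 6 * m - 3 by linarith)
      obtain ⟨d, hd⟩ := Int.eq_ofNat_of_zero_le (show 0 ≤ 6 * m + 3 by linarith)
      rw [ha, hb, hc, hd] at hne hle
      rw [ha] at a1 a11
      rw [hb] at b1 b11
      simp only [Int.cast_natCast] at hne hle
      have hmem := mem_gaps (n := n) (a := a) (b := b) (c := c) (d := d)
        ⟨by omega, by omega⟩ ⟨by omega, by omega⟩ ⟨by omega, by omega⟩ ⟨by omega, by omega⟩ hne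
      have h1 : r n 2 ≤ _ := csInf_le (gaps_bddBelow n 2) hmem
      refine h1.trans (hle.trans ?_)
      -- compare `m` and `n`
      have cm : (1 : ℝ) ≤ m := by exact_mod_cast hm
      have cn : (n : ℝ) ≤ 2453 * m := by exact_mod_cast hj2.le
      have hm0 : (0 : ℝ) < m := by linarith
      have hsm : 0 < √(m : ℝ) := Real.sqrt_pos.2 hm0
      have hsn : √(n : ℝ) ≤ 2453 * √(m : ℝ) := by
        rw [Real.sqrt_le_left (by positivity), mul_pow, Real.sq_sqrt hm0.le]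
        nlinarith
      have hprod : (n : ℝ) ^ 3 * √(n : ℝ) ≤ 2453 ^ 4 * ((m : ℝ) ^ 3 * √(m : ℝ)) := by
        calc (n : ℝ) ^ 3 * √(n : ℝ) ≤ (2453 * m) ^ 3 * (2453 * √(m : ℝ)) :=
              mul_le_mul (pow_le_pow_left₀ hn0.le cn 3) hsn hsqrt0.le (by positivity)
          _ = 2453 ^ 4 * ((m : ℝ) ^ 3 * √(m : ℝ)) := by ring
      rw [mul_one_div, div_le_div_iff₀ (by positivity) (by positivity), one_mul]
      exact hprod

end Pool.Agent.Lib.MP_ac385c_lc.SharpOrderTwo
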