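import Pool.Agent.Lib.MP_ac385c_lc.SqDefs

/-!
# Sums of square roots: the algebraic step (MP_ac385c_lc)
-/

namespace SqGap

/-- A functional on polynomials, given by its moments `M m`, together with two nodes and two
weights. -/
structure St where
  x1 : ℚ
  x2 : ℚ
  w1 : ℚ
  w2 : ℚ
  M : ℕ → ℚ

namespace St

/-- the distance of the nodes -/
def dl (s : St) : ℚ := s.x2 - s.x1

/-- the defect of the quadrature formula in degree 4 -/
def h (s : St) : ℚ := s.M 4 - (s.w1 * s.x1 ^ 4 + s.w2 * s.x2 ^ 4)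

def kp (s : St) : ℚ := s.h / (s.w1 * s.w2 * s.dl ^ 3)

def b (s : St) : ℚ := s.kp * (s.w1 - s.w2) / (s.kp * s.w2 - s.dl)

def U (s : St) : ℚ := s.w1 + s.w2 * s.b * (1 + s.b)

def V (s : St) : ℚ := s.w2 * (1 + s.b) ^ 2 - s.w1 * s.b

/-- the inverse of the new far node -/
def eta (s : St) : ℚ := (s.w1 - s.w2) * (1 + s.b + s.b ^ 2) /
  ((s.w1 - s.w2) * s.x1 * (1 + s.b + s.b ^ 2) + (s.dl - s.kp * s.w2) * s.U)

/-- the new first near node -/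
def y1 (s : St) : ℚ := s.x1 + s.dl * (s.b * s.V / ((1 + s.b) * s.U))

/-- the new second near node -/
def y2 (s : St) : ℚ := s.x2 + s.dl * (s.b * s.U / s.V)

def v1 (s : St) : ℚ := (s.w1 * (1 - s.eta * s.x1) * (s.y2 - s.x1) +
  s.w2 * (1 - s.eta * s.x2) * (s.y2 - s.x2)) / (s.y2 - s.y1)

def v2 (s : St) : ℚ := (s.w1 * (1 - s.eta * s.x1) * (s.x1 - s.y1) +
  s.w2 * (1 - s.eta * s.x2) * (s.x2 - s.y1)) / (s.y2 - s.y1)

/-- the next state: the functional is multiplied by `1 - eta x` -/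
def next (s : St) : St := ⟨s.y1, s.y2, s.v1, s.v2, fun m => s.M m - s.eta * s.M (m + 1)⟩

/-- The two node quadrature formula is exact in degrees at most 3. -/
def Ex (s : St) : Prop := ∀ m < 4, s.M m = s.w1 * s.x1 ^ m + s.w2 * s.x2 ^ m

/-- The nonvanishing conditions needed for the step. -/
structure Ok (s : St) : Prop where
  w1 : s.w1 ≠ 0
  w2 : s.w2 ≠ 0
  dl : s.dl ≠ 0
  dw : s.w1 - s.w2 ≠ 0
  kp : s.kp ≠ 0
  den : s.kp * s.w2 - s.dl ≠ 0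
  b1 : 1 + s.b ≠ 0
  U : s.U ≠ 0
  V : s.V ≠ 0
  ed : (s.w1 - s.w2) * s.x1 * (1 + s.b + s.b ^ 2) + (s.dl - s.kp * s.w2) * s.U ≠ 0
  yy : s.y2 - s.y1 ≠ 0

variable {s : St}

theorem Ok.b0 (o : s.Ok) : s.b ≠ 0 := div_ne_zero (mul_ne_zero o.kp o.dw) o.den

theorem bb_ne (s : St) : 1 + s.b + s.b ^ 2 ≠ 0 := by
  have : 0 < 1 + s.b + s.b ^ 2 := by nlinarith [sq_nonneg (s.b + 1 / 2), sq_nonneg s.b]
  exact this.ne'

theorem Ok.eta0 (o : s.Ok) : s.eta ≠ 0 := div_ne_zero (mul_ne_zero o.dw s.bb_ne) o.ed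

theorem Ok.h_eq (o : s.Ok) : s.h = s.kp * (s.w1 * s.w2 * s.dl ^ 3) := by
  unfold St.kp
  rw [div_mul_cancel₀]
  exact mul_ne_zero (mul_ne_zero o.w1 o.w2) (pow_ne_zero 3 o.dl)

theorem Ok.b_eq (o : s.Ok) : s.b * (s.kp * s.w2 - s.dl) = s.kp * (s.w1 - s.w2) := by
  unfold St.b
  rw [div_mul_cancel₀ _ o.den]

/-- `1 - eta x1` -/
theorem Ok.e1 (o : s.Ok) :
    s.b * (1 + s.b + s.b ^ 2) * (1 - s.eta * s.x1) = -(s.eta * s.kp * s.U) := by
  have h1 : s.eta * ((s.w1 - s.w2) * s.x1 * (1 + s.b + s.b ^ 2) +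
      (s.dl - s.kp * s.w2) * s.U) = (s.w1 - s.w2) * (1 + s.b + s.b ^ 2) := by
    unfold eta
    rw [div_mul_cancel₀ _ o.ed]
  have h2 := o.b_eq
  have h3 := o.dw
  apply mul_left_cancel₀ h3
  linear_combination (-s.b) * h1 - s.eta * s.U * h2

/-- `1 - eta x2` -/
theorem Ok.e2 (o : s.Ok) :
    s.b * (1 + s.b + s.b ^ 2) * (1 - s.eta * s.x2) = -(s.eta * s.kp * (1 + s.b) * s.V) := by
  have h1 := o.e1
  have h2 := o.b_eq
  have h3 : s.dl = s.x2 - s.x1 := rfl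
  have hU : s.U = s.w1 + s.w2 * s.b * (1 + s.b) := rfl
  have hV : s.V = s.w2 * (1 + s.b) ^ 2 - s.w1 * s.b := rfl
  rw [hU] at h1
  rw [hV]
  rw [h3] at h2
  linear_combination h1 + s.eta * (1 + s.b + s.b ^ 2) * h2

theorem Ok.q1 (o : s.Ok) : (1 + s.b) * s.U * ((s.x1 - s.y1) * (s.x1 - s.y2)) =
    s.dl ^ 2 * s.b * (s.w2 * (1 + s.b) * (1 + s.b + s.b ^ 2)) := by
  have hU := o.U
  have hV := o.V
  have hb := o.b1
  have h3 : s.x2 = s.x1 + s.dl := by unfold St.dl; ring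
  have h4 : s.V + s.b * s.U = s.w2 * (1 + s.b) * (1 + s.b + s.b ^ 2) := by
    unfold St.V St.U; ring
  unfold St.y1 St.y2
  rw [h3, ← h4]
  field_simp
  ring

theorem Ok.q2 (o : s.Ok) : (1 + s.b) * s.V * ((s.x2 - s.y1) * (s.x2 - s.y2)) =
    -(s.dl ^ 2 * s.b * (s.w1 * (1 + s.b + s.b ^ 2))) := by
  have hU := o.U
  have hV := o.V
  have hb := o.b1
  have h3 : s.x1 = s.x2 - s.dl := by unfold St.dl; ring
  have h4 : (1 + s.b) * s.U - s.b * s.V = s.w1 * (1 + s.b + s.b ^ 2) := by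
    unfold St.V St.U; ring
  unfold St.y1 St.y2
  rw [h3, ← h4]
  field_simp
  ring

/-- The first orthogonality relation. -/
theorem Ok.r1 (o : s.Ok) : s.dl * (s.w1 * (1 - s.eta * s.x1) *
    ((s.x1 - s.y1) * (s.x1 - s.y2))) = -(s.eta * s.h) := by
  have h1 := o.e1
  have h2 := o.q1
  have h3 := o.h_eq
  have hb0 := o.b0
  have hb1 := o.b1
  have hbb := s.bb_ne
  have hU := o.U
  have hne : s.b * (1 + s.b + s.b ^ 2) * ((1 + s.b) * s.U) ≠ 0 :=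
    mul_ne_zero (mul_ne_zero hb0 hbb) (mul_ne_zero hb1 hU)
  apply mul_left_cancel₀ hne
  have h4 : s.b * (1 + s.b + s.b ^ 2) * ((1 + s.b) * s.U) * (s.dl * (s.w1 * (1 - s.eta * s.x1) *
      ((s.x1 - s.y1) * (s.x1 - s.y2)))) =
      s.dl * s.w1 * (s.b * (1 + s.b + s.b ^ 2) * (1 - s.eta * s.x1)) *
        ((1 + s.b) * s.U * ((s.x1 - s.y1) * (s.x1 - s.y2))) := by ring
  rw [h4, h1, h2, h3]
  ring

/-- The second orthogonality relation. -/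
theorem Ok.r2 (o : s.Ok) : s.dl * (s.w2 * (1 - s.eta * s.x2) *
    ((s.x2 - s.y1) * (s.x2 - s.y2))) = s.eta * s.h := by
  have h1 := o.e2
  have h2 := o.q2
  have h3 := o.h_eq
  have hb0 := o.b0
  have hb1 := o.b1
  have hbb := s.bb_ne
  have hV := o.V
  have hne : s.b * (1 + s.b + s.b ^ 2) * ((1 + s.b) * s.V) ≠ 0 :=
    mul_ne_zero (mul_ne_zero hb0 hbb) (mul_ne_zero hb1 hV)
  apply mul_left_cancel₀ hne
  have h4 : s.b * (1 + s.b + s.b ^ 2) * ((1 + s.b) * s.V) * (s.dl * (s.w2 * (1 - s.eta * s.x2) *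
      ((s.x2 - s.y1) * (s.x2 - s.y2)))) =
      s.dl * s.w2 * (s.b * (1 + s.b + s.b ^ 2) * (1 - s.eta * s.x2)) *
        ((1 + s.b) * s.V * ((s.x2 - s.y1) * (s.x2 - s.y2))) := by ring
  rw [h4, h1, h2, h3]
  ring

theorem Ok.c0 (o : s.Ok) : s.v1 + s.v2 =
    s.w1 * (1 - s.eta * s.x1) + s.w2 * (1 - s.eta * s.x2) := by
  have := o.yy
  unfold v1 v2
  field_simp
  ring

theorem Ok.c1 (o : s.Ok) : s.v1 * s.y1 + s.v2 * s.y2 =
    s.w1 * (1 - s.eta * s.x1) * s.x1 + s.w2 * (1 - s.eta * s.x2) * s.x2 := by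
  have := o.yy
  unfold v1 v2
  field_simp
  ring

/-- The new state is exact in degrees at most 3. -/
theorem Ok.next_ex (o : s.Ok) (hs : s.Ex) : s.next.Ex := by
  have m0 := hs 0 (by norm_num)
  have m1 := hs 1 (by norm_num)
  have m2 := hs 2 (by norm_num)
  have m3 := hs 3 (by norm_num)
  have h4 : s.h = s.M 4 - (s.w1 * s.x1 ^ 4 + s.w2 * s.x2 ^ 4) := rfl
  have c0 := o.c0
  have c1 := o.c1
  have r1 := o.r1
  have r2 := o.r2
  have hd := o.dl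
  have hdl : s.dl = s.x2 - s.x1 := rfl
  -- the values of the new functional on the polynomial `Q` and `x Q`
  have hQ : s.w1 * (1 - s.eta * s.x1) * ((s.x1 - s.y1) * (s.x1 - s.y2)) +
      s.w2 * (1 - s.eta * s.x2) * ((s.x2 - s.y1) * (s.x2 - s.y2)) = 0 := by
    apply mul_left_cancel₀ hd
    linear_combination r1 + r2
  have hxQ : s.w1 * (1 - s.eta * s.x1) * s.x1 * ((s.x1 - s.y1) * (s.x1 - s.y2)) +
      s.w2 * (1 - s.eta * s.x2) * s.x2 * ((s.x2 - s.y1) * (s.x2 - s.y2)) - s.eta * s.h = 0 := by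
    apply mul_left_cancel₀ hd
    linear_combination s.x1 * r1 + s.x2 * r2 - s.eta * s.h * hdl
  have k0 : s.M 0 - s.eta * s.M 1 = s.v1 + s.v2 := by
    rw [m0, m1, c0]; ring
  have k1 : s.M 1 - s.eta * s.M 2 = s.v1 * s.y1 + s.v2 * s.y2 := by
    rw [m1, m2, c1]; ring
  have k2 : s.M 2 - s.eta * s.M 3 = s.v1 * s.y1 ^ 2 + s.v2 * s.y2 ^ 2 := by
    rw [m2, m3]
    linear_combination hQ - (s.y1 + s.y2) * c1 + s.y1 * s.y2 * c0
  have k3 : s.M 3 - s.eta * s.M 4 = s.v1 * s.y1 ^ 3 + s.v2 * s.y2 ^ 3 := by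
    have k2' := k2
    rw [m2, m3] at k2'
    rw [m3]
    linear_combination hxQ + (s.y1 + s.y2) * k2' + s.y1 * s.y2 * c1 + s.eta * h4
  intro m hm
  interval_cases m
  · show s.M 0 - s.eta * s.M 1 = s.v1 * s.y1 ^ 0 + s.v2 * s.y2 ^ 0
    rw [k0]; ring
  · show s.M 1 - s.eta * s.M 2 = s.v1 * s.y1 ^ 1 + s.v2 * s.y2 ^ 1
    rw [k1]; ring
  · exact k2
  · exact k3

end St

end SqGap
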