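import Mathlib

/-!
# Sums of square roots: definitions (MP_ac385c_lc)
-/

namespace SqGap

/-- `S(a) = ∑ i, √(a i)`. -/
noncomputable def S {k : ℕ} (a : Fin k → ℕ) : ℝ := ∑ i, √(a i : ℝ)

/-- The set of all nonzero gaps `|S(a) - S(b)|` with `a, b ∈ {1, …, n}^k`, `S(a) ≠ S(b)`. -/
def gaps (n k : ℕ) : Set ℝ :=
  {x | ∃ a b : Fin k → ℕ, (∀ i, 1 ≤ a i ∧ a i ≤ n) ∧ (∀ i, 1 ≤ b i ∧ b i ≤ n) ∧
    S a ≠ S b ∧ x = |S a - S b|}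

/-- `r(n, k)`, the least nonzero gap. -/
noncomputable def r (n k : ℕ) : ℝ := sInf (gaps n k)

/-- The binomial coefficient `binom(1/2, i)`. -/
def beta : ℕ → ℚ
  | 0 => 1
  | i + 1 => beta i * ((1 / 2 - i) / (i + 1))

/-- The coefficient of `ζ^m v^l` in
`(√(1 + ζ + 2 √(ζ + v ζ²)) + √(1 + ζ - 2 √(ζ + v ζ²))) / 2`. -/
def gam (m l : ℕ) : ℚ :=
  ∑ j ∈ Finset.range (m + 1),
    beta (m + j - l) * ((m + j - l).choose (2 * j) : ℚ) * 4 ^ j * (j.choose l : ℚ)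

/-- The coefficient of `ζ^m` in `(√(1 + ζ + 2 √(ζ + v ζ²)) + √(1 + ζ - 2 √(ζ + v ζ²))) / 2`. -/
def qq (v : ℚ) (m : ℕ) : ℚ := ∑ l ∈ Finset.range (m / 2 + 1), gam m l * v ^ l

end SqGap
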