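import Pool.Agent.Lib.MP_ac385c_lc.SqLim

/-!
# Sums of square roots: the initial state and the chain (MP_ac385c_lc)
-/

open Filter Topology

namespace SqGap

theorem beta_ne (i : ℕ) : beta i ≠ 0 := by
  induction i with
  | zero => exact one_ne_zero
  | succ i ih =>
    show beta i * ((1 / 2 - (i : ℚ)) / ((i : ℚ) + 1)) ≠ 0
    refine mul_ne_zero ih (div_ne_zero ?_ ?_)
    · intro h
      have h1 : (1 : ℚ) = 2 * (i : ℚ) := by linarith
      have h2 : (1 : ℕ) = 2 * i := by exact_mod_cast h1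
      omega
    · positivity

/-- The normalized coefficients. -/
def cc (m l : ℕ) : ℚ := (-1) ^ m * (beta m)⁻¹ * gam m l

/-- The moments of the functional in the centred and scaled variable. -/
def Mom (ε : ℚ) (m : ℕ) : ℚ :=
  ∑ l ∈ Finset.range (m / 2 + 1), cc m l * ε ^ (m - 2 * l) * (1 + ε) ^ l

/-- The initial state. -/
def ini (ε : ℚ) : St := ⟨-2, 2 + 2 * ε, (1 + ε) / (2 + ε), 1 / (2 + ε), Mom ε⟩

theorem qq_eq (a : ℕ) (ha : 0 < a) (m : ℕ) :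
    qq ((a * (a + 1) : ℕ) : ℚ) m = (-1) ^ m * beta m * ((a : ℚ) ^ m * Mom ((a : ℚ)⁻¹) m) := by
  unfold qq Mom
  rw [Finset.mul_sum, Finset.mul_sum]
  refine Finset.sum_congr rfl fun l hl => ?_
  have hl2 : 2 * l ≤ m := by
    have := Finset.mem_range.1 hl
    omega
  have ha0 : (a : ℚ) ≠ 0 := by exact_mod_cast ha.ne'
  have hb := beta_ne m
  obtain ⟨j, hj⟩ := Nat.exists_eq_add_of_le hl2
  have h1 : m - 2 * l = j := by omega
  have h2 : (a : ℚ) ^ m * ((a : ℚ)⁻¹) ^ j = (a : ℚ) ^ (2 * l) := by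
    rw [hj, pow_add, mul_assoc, ← mul_pow, mul_inv_cancel₀ ha0, one_pow, mul_one]
  have h3 : ((-1 : ℚ) ^ m) * (-1) ^ m = 1 := by
    rw [← mul_pow]; norm_num
  have h4 : ((a * (a + 1) : ℕ) : ℚ) = (a : ℚ) ^ 2 * (1 + (a : ℚ)⁻¹) := by
    push_cast
    field_simp
  rw [h1, h4, mul_pow, ← pow_mul]
  unfold cc
  calc gam m l * ((a : ℚ) ^ (2 * l) * (1 + (a : ℚ)⁻¹) ^ l)
      = (((-1 : ℚ) ^ m) * (-1) ^ m) * (beta m * (beta m)⁻¹) * gam m l *
          (((a : ℚ) ^ m * ((a : ℚ)⁻¹) ^ j) * (1 + (a : ℚ)⁻¹) ^ l) := by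
        rw [h3, mul_inv_cancel₀ hb, h2]; ring
    _ = _ := by ring

theorem gam_even (j : ℕ) : gam (2 * j) j = beta (2 * j) * 4 ^ j := by
  unfold gam
  rw [Finset.sum_eq_single j]
  · have h1 : 2 * j + j - j = 2 * j := by omega
    rw [h1, Nat.choose_self, Nat.choose_self]
    norm_num
  · intro i _ hi
    rcases lt_or_gt_of_ne hi with h | h
    · rw [Nat.choose_eq_zero_of_lt h]
      norm_num
    · have h1 : 2 * j + i - j < 2 * i := by omega
      rw [Nat.choose_eq_zero_of_lt h1]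
      norm_num
  · intro h
    exact absurd (Finset.mem_range.2 (by omega)) h

theorem gam_odd (j : ℕ) : gam (2 * j + 1) j = -(2 * j) * beta (2 * j + 1) * 4 ^ j := by
  unfold gam
  have h0 : ∑ i ∈ Finset.range (2 * j + 1 + 1), beta (2 * j + 1 + i - j) *
      ((2 * j + 1 + i - j).choose (2 * i) : ℚ) * 4 ^ i * (i.choose j : ℚ) =
      ∑ i ∈ ({j, j + 1} : Finset ℕ), beta (2 * j + 1 + i - j) *
      ((2 * j + 1 + i - j).choose (2 * i) : ℚ) * 4 ^ i * (i.choose j : ℚ) := by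
    symm
    apply Finset.sum_subset
    · intro i hi
      rw [Finset.mem_insert, Finset.mem_singleton] at hi
      rw [Finset.mem_range]
      omega
    · intro i _ hi
      rw [Finset.mem_insert, Finset.mem_singleton, not_or] at hi
      rcases lt_or_gt_of_ne hi.1 with h | h
      · rw [Nat.choose_eq_zero_of_lt h]
        norm_num
      · have h1 : 2 * j + 1 + i - j < 2 * i := by omega
        rw [Nat.choose_eq_zero_of_lt h1]
        norm_num
  rw [h0, Finset.sum_pair (by omega)]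
  have h1 : 2 * j + 1 + j - j = 2 * j + 1 := by omega
  have h2 : 2 * j + 1 + (j + 1) - j = 2 * j + 1 + 1 := by omega
  have h3 : 2 * (j + 1) = 2 * j + 1 + 1 := by ring
  have h4 : (2 * j + 1).choose (2 * j) = 2 * j + 1 := by
    rw [Nat.choose_succ_self_right]
  have h5 : (j + 1).choose j = j + 1 := by
    rw [Nat.choose_succ_self_right]
  rw [h1, h2, h3, h4, h5, Nat.choose_self, Nat.choose_self]
  have h6 : beta (2 * j + 1 + 1) = beta (2 * j + 1) *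
      ((1 / 2 - ((2 * j + 1 : ℕ) : ℚ)) / (((2 * j + 1 : ℕ) : ℚ) + 1)) := rfl
  rw [h6]
  push_cast
  have h7 : (2 * (j : ℚ) + 1 + 1) ≠ 0 := by positivity
  field_simp
  ring

theorem cc_even (j : ℕ) : cc (2 * j) j = 4 ^ j := by
  unfold cc
  rw [gam_even, pow_mul]
  have := beta_ne (2 * j)
  field_simp
  norm_num

theorem cc_odd (j : ℕ) : cc (2 * j + 1) j = 2 * j * 4 ^ j := by
  unfold cc
  rw [gam_odd, pow_succ, pow_mul]
  have := beta_ne (2 * j + 1)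
  field_simp
  norm_num

open Polynomial in
theorem bern (n : ℕ) : ∃ g : ℚ[X], ∀ ε : ℚ, (1 + ε) ^ n = 1 + n * ε + ε ^ 2 * g.eval ε := by
  induction n with
  | zero =>
    refine ⟨0, fun ε => ?_⟩
    rw [pow_zero, eval_zero]
    norm_num
  | succ n ih =>
    obtain ⟨g, hg⟩ := ih
    refine ⟨C (n : ℚ) + g + X * g, fun ε => ?_⟩
    rw [pow_succ, hg, eval_add, eval_add, eval_mul, eval_C, eval_X]
    push_cast
    ring

open Polynomial in
theorem mom_mod (m : ℕ) : ∃ g : ℚ[X], ∀ ε : ℚ,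
    (2 + ε) * Mom ε m - 2 ^ m * ((1 + ε) * (-1) ^ m + (1 + ε) ^ m) = ε ^ 2 * g.eval ε := by
  -- the terms with `l < m / 2`
  have h1 : ∃ g : ℚ[X], ∀ ε : ℚ, Mom ε m = ε ^ 2 * g.eval ε +
      cc m (m / 2) * ε ^ (m - 2 * (m / 2)) * (1 + ε) ^ (m / 2) := by
    refine ⟨∑ l ∈ Finset.range (m / 2), C (cc m l) * X ^ (m - 2 * l - 2) * (1 + X) ^ l,
      fun ε => ?_⟩
    unfold Mom
    rw [Finset.sum_range_succ, eval_finsetSum, Finset.mul_sum]
    congr 1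
    refine Finset.sum_congr rfl fun l hl => ?_
    have hl2 := Finset.mem_range.1 hl
    have e1 : m - 2 * l = 2 + (m - 2 * l - 2) := by omega
    rw [eval_mul, eval_mul, eval_pow, eval_pow, eval_C, eval_X, eval_add, eval_one, eval_X]
    conv_lhs => rw [e1, pow_add]
    ring
  obtain ⟨g0, hg0⟩ := h1
  rcases Nat.even_or_odd' m with ⟨j, rfl | rfl⟩
  · obtain ⟨g1, hg1⟩ := bern j
    obtain ⟨g2, hg2⟩ := bern (2 * j)
    have e1 : 2 * j / 2 = j := by omega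
    refine ⟨(C 2 + X) * g0 + C (4 ^ j) * (C (j : ℚ) + (C 2 + X) * g1 - g2), fun ε => ?_⟩
    rw [hg0, e1, cc_even, Nat.sub_self, pow_zero, hg1, hg2]
    simp only [eval_add, eval_mul, eval_sub, eval_C, eval_X]
    have e2 : (2 : ℚ) ^ (2 * j) = 4 ^ j := by rw [pow_mul]; norm_num
    have e3 : (-1 : ℚ) ^ (2 * j) = 1 := by rw [pow_mul]; norm_num
    rw [e2, e3]
    push_cast
    ring
  · obtain ⟨g1, hg1⟩ := bern j
    obtain ⟨g2, hg2⟩ := bern (2 * j + 1)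
    have e1 : (2 * j + 1) / 2 = j := by omega
    have e0 : 2 * j + 1 - 2 * j = 1 := by omega
    refine ⟨(C 2 + X) * g0 + C (2 * 4 ^ j) * (C (j : ℚ) * (C 1 + (C 2 + X) * C (j : ℚ) +
      (C 2 + X) * X * g1) - g2), fun ε => ?_⟩
    rw [hg0, e1, cc_odd, e0, pow_one, hg1, hg2]
    simp only [eval_add, eval_mul, eval_sub, eval_C, eval_X]
    have e2 : (2 : ℚ) ^ (2 * j + 1) = 2 * 4 ^ j := by
      rw [pow_succ, pow_mul]; norm_num; ring
    have e3 : (-1 : ℚ) ^ (2 * j + 1) = -1 := by rw [pow_succ, pow_mul]; norm_num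
    rw [e2, e3]
    push_cast
    ring

theorem cc_val : cc 0 0 = 1 ∧ cc 1 0 = 0 ∧ cc 2 0 = 0 ∧ cc 2 1 = 4 ∧ cc 3 0 = 0 ∧ cc 3 1 = 8 ∧
    cc 4 0 = 0 ∧ cc 4 1 = 64 / 5 ∧ cc 4 2 = 16 := by
  decide +kernel

theorem mom_vals (ε : ℚ) : Mom ε 0 = 1 ∧ Mom ε 1 = 0 ∧ Mom ε 2 = 4 * (1 + ε) ∧
    Mom ε 3 = 8 * ε * (1 + ε) ∧
    Mom ε 4 = 64 / 5 * ε ^ 2 * (1 + ε) + 16 * (1 + ε) ^ 2 := by
  obtain ⟨c00, c10, c20, c21, c30, c31, c40, c41, c42⟩ := cc_val
  unfold Mom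
  refine ⟨?_, ?_, ?_, ?_, ?_⟩
  · rw [show 0 / 2 + 1 = 1 from rfl, Finset.sum_range_one, c00]
    norm_num
  · rw [show 1 / 2 + 1 = 1 from rfl, Finset.sum_range_one, c10]
    norm_num
  · rw [show 2 / 2 + 1 = 2 from rfl, Finset.sum_range_succ, Finset.sum_range_one, c20, c21]
    norm_num
  · rw [show 3 / 2 + 1 = 2 from rfl, Finset.sum_range_succ, Finset.sum_range_one, c30, c31]
    norm_num
  · rw [show 4 / 2 + 1 = 3 from rfl, Finset.sum_range_succ, Finset.sum_range_succ,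
      Finset.sum_range_one, c40, c41, c42]
    norm_num

theorem ini_ex (ε : ℚ) (h : 0 ≤ ε) : (ini ε).Ex := by
  obtain ⟨m0, m1, m2, m3, -⟩ := mom_vals ε
  have h2 : 2 + ε ≠ 0 := by positivity
  intro m hm
  interval_cases m
  · show Mom ε 0 = (1 + ε) / (2 + ε) * (-2) ^ 0 + 1 / (2 + ε) * (2 + 2 * ε) ^ 0
    rw [m0]
    field_simp
    ring
  · show Mom ε 1 = (1 + ε) / (2 + ε) * (-2) ^ 1 + 1 / (2 + ε) * (2 + 2 * ε) ^ 1
    rw [m1]
    field_simp
    ring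
  · show Mom ε 2 = (1 + ε) / (2 + ε) * (-2) ^ 2 + 1 / (2 + ε) * (2 + 2 * ε) ^ 2
    rw [m2]
    field_simp
    ring
  · show Mom ε 3 = (1 + ε) / (2 + ε) * (-2) ^ 3 + 1 / (2 + ε) * (2 + 2 * ε) ^ 3
    rw [m3]
    field_simp
    ring

theorem ini_em (m : ℕ) : ∃ L : ℚ, Tendsto (fun a : ℕ => (a : ℚ) ^ 2 *
    ((ini ((a : ℚ)⁻¹)).M m - ((ini ((a : ℚ)⁻¹)).w1 * (ini ((a : ℚ)⁻¹)).x1 ^ m +
      (ini ((a : ℚ)⁻¹)).w2 * (ini ((a : ℚ)⁻¹)).x2 ^ m))) atTop (𝓝 L) := by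
  obtain ⟨g, hg⟩ := mom_mod m
  refine ⟨g.eval 0 / 2, ?_⟩
  have h1 : Tendsto (fun a : ℕ => g.eval ((a : ℚ)⁻¹)) atTop (𝓝 (g.eval 0)) :=
    (g.continuous.tendsto 0).comp tendsto_natInv
  have h2 : Tendsto (fun a : ℕ => 2 + ((a : ℚ)⁻¹)) atTop (𝓝 2) := by
    have := tendsto_natInv.const_add 2
    rwa [add_zero] at this
  refine (h1.div h2 (by norm_num)).congr' ?_
  filter_upwards [eventually_gt_atTop 0] with a ha
  have ha0 : (a : ℚ) ≠ 0 := by exact_mod_cast ha.ne'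
  have hpos : (0 : ℚ) ≤ ((a : ℚ)⁻¹) := by positivity
  set ε : ℚ := ((a : ℚ)⁻¹) with hε
  have h3 : 2 + ε ≠ 0 := by positivity
  show g.eval ε / (2 + ε) = (a : ℚ) ^ 2 * (Mom ε m - ((1 + ε) / (2 + ε) * (-2) ^ m +
    1 / (2 + ε) * (2 + 2 * ε) ^ m))
  have h4 := hg ε
  have h5 : (-2 : ℚ) ^ m = 2 ^ m * (-1) ^ m := by rw [← mul_pow]; norm_num
  have h6 : (2 + 2 * ε) ^ m = 2 ^ m * (1 + ε) ^ m := by rw [← mul_pow]; congr 1; ring
  have h7 : (a : ℚ) ^ 2 * ε ^ 2 = 1 := by rw [← mul_pow, hε, mul_inv_cancel₀ ha0, one_pow]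
  rw [h5, h6, div_eq_iff h3]
  calc g.eval ε = (a : ℚ) ^ 2 * (ε ^ 2 * g.eval ε) := by rw [← mul_assoc, h7, one_mul]
    _ = _ := by
      rw [← h4]
      field_simp

theorem ini_lim : ∃ e : ℕ → ℚ, e 4 = -(16 / 5) ∧
    Lim (fun a : ℕ => ini ((a : ℚ)⁻¹)) (1 / 2) e := by
  choose e he using ini_em
  have h2 : Tendsto (fun a : ℕ => 2 + ((a : ℚ)⁻¹)) atTop (𝓝 2) := by
    have := tendsto_natInv.const_add 2
    rwa [add_zero] at this
  have h1 : Tendsto (fun a : ℕ => 1 + ((a : ℚ)⁻¹)) atTop (𝓝 1) := by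
    have := tendsto_natInv.const_add 1
    rwa [add_zero] at this
  refine ⟨e, ?_, ?_⟩
  · apply tendsto_nhds_unique (he 4)
    have h3 := h1.const_mul (-(16 / 5) : ℚ)
    rw [mul_one] at h3
    refine h3.congr' ?_
    filter_upwards [eventually_gt_atTop 0] with a ha
    have ha0 : (a : ℚ) ≠ 0 := by exact_mod_cast ha.ne'
    have hpos : (0 : ℚ) ≤ ((a : ℚ)⁻¹) := by positivity
    set ε : ℚ := ((a : ℚ)⁻¹) with hε
    have h3 : 2 + ε ≠ 0 := by positivity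
    obtain ⟨-, -, -, -, m4⟩ := mom_vals ε
    show -(16 / 5) * (1 + ε) = (a : ℚ) ^ 2 * (Mom ε 4 - ((1 + ε) / (2 + ε) * (-2) ^ 4 +
      1 / (2 + ε) * (2 + 2 * ε) ^ 4))
    have h7 : (a : ℚ) ^ 2 * ε ^ 2 = 1 := by rw [← mul_pow, hε, mul_inv_cancel₀ ha0, one_pow]
    have h8 : Mom ε 4 - ((1 + ε) / (2 + ε) * (-2) ^ 4 + 1 / (2 + ε) * (2 + 2 * ε) ^ 4) =
        -(16 / 5) * (1 + ε) * ε ^ 2 := by
      rw [m4]
      field_simp
      ring
    rw [h8]
    calc -(16 / 5) * (1 + ε) = -(16 / 5) * (1 + ε) * ((a : ℚ) ^ 2 * ε ^ 2) := by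
          rw [h7, mul_one]
      _ = _ := by ring
  · exact
      { x1 := tendsto_const_nhds
        x2 := by
          have := (tendsto_natInv.const_mul 2).const_add 2
          rwa [mul_zero, add_zero] at this
        w1 := h1.div h2 (by norm_num)
        w2 := tendsto_const_nhds.div h2 (by norm_num)
        dw := by
          have h3 : Tendsto (fun a : ℕ => (1 : ℚ) / (2 + ((a : ℚ)⁻¹))) atTop (𝓝 (1 / 2)) :=
            tendsto_const_nhds.div h2 (by norm_num)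
          refine h3.congr' ?_
          filter_upwards [eventually_gt_atTop 0] with a ha
          have ha0 : (a : ℚ) ≠ 0 := by exact_mod_cast ha.ne'
          have hpos : (0 : ℚ) ≤ ((a : ℚ)⁻¹) := by positivity
          have h3 : 2 + ((a : ℚ)⁻¹) ≠ 0 := by positivity
          show 1 / (2 + ((a : ℚ)⁻¹)) = (a : ℚ) * ((1 + ((a : ℚ)⁻¹)) / (2 + ((a : ℚ)⁻¹)) -
            1 / (2 + ((a : ℚ)⁻¹)))
          rw [div_sub_div_same, add_sub_cancel_left, ← mul_div_assoc, mul_inv_cancel₀ ha0]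
        em := he
        ex := Eventually.of_forall fun a => ini_ex _ (by positivity) }

/-- The chain. -/
def chain (a i : ℕ) : St := St.next^[i] (ini ((a : ℚ)⁻¹))

theorem chain_succ (a i : ℕ) : chain a (i + 1) = (chain a i).next :=
  Function.iterate_succ_apply' _ _ _

theorem chain_lim : ∃ e : ℕ → ℚ, e 4 = -(16 / 5) ∧
    ∀ i, Lim (fun a => chain a i) (2 ^ i * (1 / 2)) e := by
  obtain ⟨e, he, h0⟩ := ini_lim
  refine ⟨e, he, fun i => ?_⟩
  induction i with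
  | zero =>
    rw [pow_zero, one_mul]
    exact h0
  | succ i ih =>
    have h1 := ih.next (by positivity) (by rw [he]; norm_num)
    have e1 : (2 : ℚ) * (2 ^ i * (1 / 2)) = 2 ^ (i + 1) * (1 / 2) := by ring
    rw [e1] at h1
    have e2 : (fun a => chain a (i + 1)) = fun a => (chain a i).next := by
      funext a
      exact chain_succ a i
    rw [e2]
    exact h1

end SqGap
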