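import Pool.Agent.Lib.MP_ac385c_lc.SqAlg

/-!
# Sums of square roots: asymptotics of the algebraic step (MP_ac385c_lc)
-/

open Filter Topology

namespace SqGap

theorem tendsto_natInv : Tendsto (fun a : ℕ => ((a : ℚ))⁻¹) atTop (𝓝 0) :=
  tendsto_inv_atTop_zero.comp tendsto_natCast_atTop_atTop

theorem tendsto_zero_of_mul {f : ℕ → ℚ} {L : ℚ}
    (h : Tendsto (fun a : ℕ => (a : ℚ) * f a) atTop (𝓝 L)) : Tendsto f atTop (𝓝 0) := by
  have h1 := h.mul tendsto_natInv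
  rw [mul_zero] at h1
  refine h1.congr' ?_
  filter_upwards [eventually_gt_atTop 0] with a ha
  have : (a : ℚ) ≠ 0 := by exact_mod_cast ha.ne'
  field_simp

theorem tendsto_mul_zero_of_sq {f : ℕ → ℚ} {L : ℚ}
    (h : Tendsto (fun a : ℕ => (a : ℚ) ^ 2 * f a) atTop (𝓝 L)) :
    Tendsto (fun a : ℕ => (a : ℚ) * f a) atTop (𝓝 0) := by
  apply tendsto_zero_of_mul (L := L)
  refine h.congr fun a => ?_
  ring

theorem tendsto_zero_of_sq {f : ℕ → ℚ} {L : ℚ}
    (h : Tendsto (fun a : ℕ => (a : ℚ) ^ 2 * f a) atTop (𝓝 L)) : Tendsto f atTop (𝓝 0) :=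
  tendsto_zero_of_mul (tendsto_mul_zero_of_sq h)

/-- The asymptotic behaviour of a sequence of states. -/
structure Lim (s : ℕ → St) (d : ℚ) (e : ℕ → ℚ) : Prop where
  x1 : Tendsto (fun a => (s a).x1) atTop (𝓝 (-2))
  x2 : Tendsto (fun a => (s a).x2) atTop (𝓝 2)
  w1 : Tendsto (fun a => (s a).w1) atTop (𝓝 (1 / 2))
  w2 : Tendsto (fun a => (s a).w2) atTop (𝓝 (1 / 2))
  dw : Tendsto (fun a : ℕ => (a : ℚ) * ((s a).w1 - (s a).w2)) atTop (𝓝 d)
  em : ∀ m, Tendsto (fun a : ℕ => (a : ℚ) ^ 2 *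
    ((s a).M m - ((s a).w1 * (s a).x1 ^ m + (s a).w2 * (s a).x2 ^ m))) atTop (𝓝 (e m))
  ex : ∀ᶠ a in atTop, (s a).Ex

namespace Lim

variable {s : ℕ → St} {d : ℚ} {e : ℕ → ℚ}

theorem hh (l : Lim s d e) : Tendsto (fun a : ℕ => (a : ℚ) ^ 2 * (s a).h) atTop (𝓝 (e 4)) :=
  l.em 4

theorem dl (l : Lim s d e) : Tendsto (fun a => (s a).dl) atTop (𝓝 4) := by
  have h := l.x2.sub l.x1
  have e1 : (2 : ℚ) - -2 = 4 := by norm_num
  rw [e1] at h
  exact h

theorem kp2 (l : Lim s d e) :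
    Tendsto (fun a : ℕ => (a : ℚ) ^ 2 * (s a).kp) atTop (𝓝 (e 4 / 16)) := by
  have h1 : Tendsto (fun a => (s a).w1 * (s a).w2 * (s a).dl ^ 3) atTop (𝓝 16) := by
    have h := (l.w1.mul l.w2).mul (l.dl.pow 3)
    have e1 : (1 : ℚ) / 2 * (1 / 2) * 4 ^ 3 = 16 := by norm_num
    rw [e1] at h
    exact h
  have h2 := l.hh.div h1 (by norm_num)
  refine h2.congr fun a => ?_
  show (a : ℚ) ^ 2 * (s a).h / _ = (a : ℚ) ^ 2 * (s a).kp
  unfold St.kp
  rw [mul_div_assoc]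

theorem den (l : Lim s d e) :
    Tendsto (fun a => (s a).kp * (s a).w2 - (s a).dl) atTop (𝓝 (-4)) := by
  have h := ((tendsto_zero_of_sq l.kp2).mul l.w2).sub l.dl
  have e1 : (0 : ℚ) * (1 / 2) - 4 = -4 := by norm_num
  rw [e1] at h
  exact h

theorem b2 (l : Lim s d e) : Tendsto (fun a : ℕ => (a : ℚ) ^ 2 * (s a).b) atTop (𝓝 0) := by
  have h0 := tendsto_zero_of_mul l.dw
  have h1 := (l.kp2.mul h0).div l.den (by norm_num)
  rw [mul_zero, zero_div] at h1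
  refine h1.congr fun a => ?_
  show (a : ℚ) ^ 2 * (s a).kp * ((s a).w1 - (s a).w2) / ((s a).kp * (s a).w2 - (s a).dl) =
    (a : ℚ) ^ 2 * (s a).b
  unfold St.b
  ring

theorem b0 (l : Lim s d e) : Tendsto (fun a => (s a).b) atTop (𝓝 0) := tendsto_zero_of_sq l.b2

theorem b1 (l : Lim s d e) : Tendsto (fun a => 1 + (s a).b) atTop (𝓝 1) := by
  have h := l.b0.const_add 1
  rw [add_zero] at h
  exact h

theorem bb (l : Lim s d e) : Tendsto (fun a => 1 + (s a).b + (s a).b ^ 2) atTop (𝓝 1) := by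
  have h := l.b1.add (l.b0.pow 2)
  have e1 : (1 : ℚ) + 0 ^ 2 = 1 := by norm_num
  rw [e1] at h
  exact h

theorem U (l : Lim s d e) : Tendsto (fun a => (s a).U) atTop (𝓝 (1 / 2)) := by
  have h := l.w1.add ((l.w2.mul l.b0).mul l.b1)
  have e1 : (1 : ℚ) / 2 + 1 / 2 * 0 * 1 = 1 / 2 := by norm_num
  rw [e1] at h
  exact h

theorem V (l : Lim s d e) : Tendsto (fun a => (s a).V) atTop (𝓝 (1 / 2)) := by
  have h := (l.w2.mul (l.b1.pow 2)).sub (l.w1.mul l.b0)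
  have e1 : (1 : ℚ) / 2 * 1 ^ 2 - 1 / 2 * 0 = 1 / 2 := by norm_num
  rw [e1] at h
  exact h

theorem ed (l : Lim s d e) : Tendsto (fun a => ((s a).w1 - (s a).w2) * (s a).x1 *
    (1 + (s a).b + (s a).b ^ 2) + ((s a).dl - (s a).kp * (s a).w2) * (s a).U) atTop (𝓝 2) := by
  have h0 := tendsto_zero_of_mul l.dw
  have h := ((h0.mul l.x1).mul l.bb).add
    ((l.dl.sub ((tendsto_zero_of_sq l.kp2).mul l.w2)).mul l.U)
  have e1 : (0 : ℚ) * -2 * 1 + (4 - 0 * (1 / 2)) * (1 / 2) = 2 := by norm_num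
  rw [e1] at h
  exact h

theorem eta1 (l : Lim s d e) :
    Tendsto (fun a : ℕ => (a : ℚ) * (s a).eta) atTop (𝓝 (d / 2)) := by
  have h := (l.dw.mul l.bb).div l.ed (by norm_num)
  rw [mul_one] at h
  refine h.congr fun a => ?_
  show (a : ℚ) * ((s a).w1 - (s a).w2) * (1 + (s a).b + (s a).b ^ 2) / _ =
    (a : ℚ) * (s a).eta
  unfold St.eta
  ring

theorem eta0 (l : Lim s d e) : Tendsto (fun a => (s a).eta) atTop (𝓝 0) :=
  tendsto_zero_of_mul l.eta1

theorem y1x (l : Lim s d e) :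
    Tendsto (fun a : ℕ => (a : ℚ) ^ 2 * ((s a).y1 - (s a).x1)) atTop (𝓝 0) := by
  have h := l.dl.mul ((l.b2.mul l.V).div (l.b1.mul l.U) (by norm_num))
  rw [zero_mul, zero_div, mul_zero] at h
  refine h.congr fun a => ?_
  show (s a).dl * ((a : ℚ) ^ 2 * (s a).b * (s a).V / ((1 + (s a).b) * (s a).U)) =
    (a : ℚ) ^ 2 * ((s a).y1 - (s a).x1)
  unfold St.y1
  ring

theorem y2x (l : Lim s d e) :
    Tendsto (fun a : ℕ => (a : ℚ) ^ 2 * ((s a).y2 - (s a).x2)) atTop (𝓝 0) := by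
  have h := l.dl.mul ((l.b2.mul l.U).div l.V (by norm_num))
  rw [zero_mul, zero_div, mul_zero] at h
  refine h.congr fun a => ?_
  show (s a).dl * ((a : ℚ) ^ 2 * (s a).b * (s a).U / (s a).V) =
    (a : ℚ) ^ 2 * ((s a).y2 - (s a).x2)
  unfold St.y2
  ring

theorem y1 (l : Lim s d e) : Tendsto (fun a => (s a).y1) atTop (𝓝 (-2)) := by
  have h := (tendsto_zero_of_sq l.y1x).add l.x1
  rw [zero_add] at h
  exact h.congr fun a => sub_add_cancel _ _

theorem y2 (l : Lim s d e) : Tendsto (fun a => (s a).y2) atTop (𝓝 2) := by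
  have h := (tendsto_zero_of_sq l.y2x).add l.x2
  rw [zero_add] at h
  exact h.congr fun a => sub_add_cancel _ _

theorem yy (l : Lim s d e) : Tendsto (fun a => (s a).y2 - (s a).y1) atTop (𝓝 4) := by
  have h := l.y2.sub l.y1
  have e1 : (2 : ℚ) - -2 = 4 := by norm_num
  rw [e1] at h
  exact h

theorem we1 (l : Lim s d e) :
    Tendsto (fun a => (s a).w1 * (1 - (s a).eta * (s a).x1)) atTop (𝓝 (1 / 2)) := by
  have h := l.w1.mul ((l.eta0.mul l.x1).const_sub 1)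
  have e1 : (1 : ℚ) / 2 * (1 - 0 * -2) = 1 / 2 := by norm_num
  rw [e1] at h
  exact h

theorem we2 (l : Lim s d e) :
    Tendsto (fun a => (s a).w2 * (1 - (s a).eta * (s a).x2)) atTop (𝓝 (1 / 2)) := by
  have h := l.w2.mul ((l.eta0.mul l.x2).const_sub 1)
  have e1 : (1 : ℚ) / 2 * (1 - 0 * 2) = 1 / 2 := by norm_num
  rw [e1] at h
  exact h

theorem ok (l : Lim s d e) (hd : d ≠ 0) (he : e 4 ≠ 0) : ∀ᶠ a in atTop, (s a).Ok := by
  filter_upwards [l.w1.eventually_ne (show (1 / 2 : ℚ) ≠ 0 by norm_num),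
    l.w2.eventually_ne (show (1 / 2 : ℚ) ≠ 0 by norm_num),
    l.dl.eventually_ne (show (4 : ℚ) ≠ 0 by norm_num), l.dw.eventually_ne hd,
    l.kp2.eventually_ne (div_ne_zero he (show (16 : ℚ) ≠ 0 by norm_num)),
    l.den.eventually_ne (show (-4 : ℚ) ≠ 0 by norm_num),
    l.b1.eventually_ne (show (1 : ℚ) ≠ 0 by norm_num),
    l.U.eventually_ne (show (1 / 2 : ℚ) ≠ 0 by norm_num),
    l.V.eventually_ne (show (1 / 2 : ℚ) ≠ 0 by norm_num),
    l.ed.eventually_ne (show (2 : ℚ) ≠ 0 by norm_num),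
    l.yy.eventually_ne (show (4 : ℚ) ≠ 0 by norm_num)] with a h1 h2 h3 h4 h5 h6 h7 h8 h9 h10 h11
  exact
    { w1 := h1
      w2 := h2
      dl := h3
      dw := fun h => h4 (by rw [h, mul_zero])
      kp := fun h => h5 (by rw [h, mul_zero])
      den := h6
      b1 := h7
      U := h8
      V := h9
      ed := h10
      yy := h11 }

theorem v1w (l : Lim s d e) : Tendsto (fun a : ℕ => (a : ℚ) ^ 2 *
    ((s a).v1 - (s a).w1 * (1 - (s a).eta * (s a).x1))) atTop (𝓝 0) := by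
  have h := ((l.we1.mul l.y1x).add (l.we2.mul l.y2x)).div l.yy (by norm_num)
  have e1 : ((1 : ℚ) / 2 * 0 + 1 / 2 * 0) / 4 = 0 := by norm_num
  rw [e1] at h
  refine h.congr' ?_
  filter_upwards [l.yy.eventually_ne (show (4 : ℚ) ≠ 0 by norm_num)] with a ha
  simp only [Pi.div_apply]
  unfold St.v1
  field_simp
  ring

theorem v2w (l : Lim s d e) : Tendsto (fun a : ℕ => (a : ℚ) ^ 2 *
    ((s a).v2 - (s a).w2 * (1 - (s a).eta * (s a).x2))) atTop (𝓝 0) := by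
  have h := (((l.we1.mul l.y1x).add (l.we2.mul l.y2x)).div l.yy (by norm_num)).neg
  have e1 : -(((1 : ℚ) / 2 * 0 + 1 / 2 * 0) / 4) = 0 := by norm_num
  rw [e1] at h
  refine h.congr' ?_
  filter_upwards [l.yy.eventually_ne (show (4 : ℚ) ≠ 0 by norm_num)] with a ha
  simp only [Pi.div_apply]
  unfold St.v2
  field_simp
  ring

/-- powers of the nodes -/
theorem pow_sub (f g : ℕ → ℚ) {L : ℚ} (hf : Tendsto f atTop (𝓝 L)) (hg : Tendsto g atTop (𝓝 L))
    (h : Tendsto (fun a : ℕ => (a : ℚ) ^ 2 * (f a - g a)) atTop (𝓝 0)) (m : ℕ) :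
    Tendsto (fun a : ℕ => (a : ℚ) ^ 2 * (f a ^ m - g a ^ m)) atTop (𝓝 0) := by
  induction m with
  | zero =>
    refine tendsto_const_nhds.congr fun a => ?_
    rw [pow_zero, pow_zero, sub_self, mul_zero]
  | succ m ih =>
    have h1 := (h.mul (hf.pow m)).add (hg.mul ih)
    rw [zero_mul, mul_zero, add_zero] at h1
    refine h1.congr fun a => ?_
    ring

theorem next (l : Lim s d e) (hd : d ≠ 0) (he : e 4 ≠ 0) :
    Lim (fun a => (s a).next) (2 * d) e where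
  x1 := l.y1
  x2 := l.y2
  w1 := by
    have h := (tendsto_zero_of_sq l.v1w).add l.we1
    rw [zero_add] at h
    exact h.congr fun a => sub_add_cancel _ _
  w2 := by
    have h := (tendsto_zero_of_sq l.v2w).add l.we2
    rw [zero_add] at h
    exact h.congr fun a => sub_add_cancel _ _
  dw := by
    have h := ((tendsto_mul_zero_of_sq l.v1w).sub (tendsto_mul_zero_of_sq l.v2w)).add
      (l.dw.sub (l.eta1.mul ((l.w1.mul l.x1).sub (l.w2.mul l.x2))))
    have e1 : (0 : ℚ) - 0 + (d - d / 2 * (1 / 2 * -2 - 1 / 2 * 2)) = 2 * d := by ring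
    rw [e1] at h
    refine h.congr fun a => ?_
    show _ = (a : ℚ) * ((s a).v1 - (s a).v2)
    ring
  em := by
    intro m
    have h1 := (l.em m).sub (l.eta0.mul (l.em (m + 1)))
    rw [zero_mul, sub_zero] at h1
    have h2 := (l.v1w.mul (l.y1.pow m)).add
      (l.we1.mul (pow_sub _ _ l.y1 l.x1 l.y1x m))
    have h3 := (l.v2w.mul (l.y2.pow m)).add
      (l.we2.mul (pow_sub _ _ l.y2 l.x2 l.y2x m))
    rw [zero_mul, mul_zero, add_zero] at h2 h3
    have h4 := (h1.sub h2).sub h3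
    rw [sub_zero, sub_zero] at h4
    refine h4.congr fun a => ?_
    show _ = (a : ℚ) ^ 2 * (((s a).M m - (s a).eta * (s a).M (m + 1)) -
      ((s a).v1 * (s a).y1 ^ m + (s a).v2 * (s a).y2 ^ m))
    ring
  ex := by
    filter_upwards [l.ok hd he, l.ex] with a h1 h2
    exact h1.next_ex h2

end Lim

end SqGap
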