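import Pool.Agent.Lib.MP_ac385c_lc.SqDefs

/-!
# Sums of square roots: from a quadrature formula to small gaps (MP_ac385c_lc)
-/

namespace SqGap

open Filter Asymptotics Topology Finset

private lemma p1_beta_choose (i : ℕ) : ((beta i : ℚ) : ℝ) = Ring.choose (1 / 2 : ℝ) i := by
  induction i with
  | zero => simp [beta]
  | succ i ih =>
    have h1 := Ring.descPochhammer_eq_factorial_smul_choose (1 / 2 : ℝ) (i + 1)
    have h0 := Ring.descPochhammer_eq_factorial_smul_choose (1 / 2 : ℝ) i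
    rw [descPochhammer_succ_right] at h1
    simp only [Polynomial.smeval_mul, Polynomial.smeval_sub, Polynomial.smeval_X,
      Polynomial.smeval_natCast, pow_one, pow_zero, nsmul_eq_mul, mul_one] at h1 h0
    rw [h0] at h1
    rw [Nat.factorial_succ] at h1
    push_cast at h1
    have hf : ((i.factorial : ℕ) : ℝ) ≠ 0 := by positivity
    have hi : ((i : ℝ) + 1) ≠ 0 := by positivity
    have h2 : Ring.choose (1 / 2 : ℝ) (i + 1) = Ring.choose (1 / 2 : ℝ) i * ((1 / 2 - i) / (i + 1)) := by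
      field_simp
      have : (i.factorial : ℝ) * (Ring.choose (1 / 2 : ℝ) (i + 1) * 2 * (i + 1)) =
          (i.factorial : ℝ) * (Ring.choose (1 / 2 : ℝ) i * (1 - 2 * i)) := by
        linear_combination (-2) * h1
      have := mul_left_cancel₀ hf this
      linear_combination this
    rw [h2, ← ih]
    simp [beta]

private lemma p1_sqrt_taylor (n : ℕ) :
    (fun y : ℝ => √(1 + y) - ∑ i ∈ range n, (beta i : ℝ) * y ^ i) =O[𝓝 0] fun y => y ^ n := by
  have h := (Real.one_add_rpow_hasFPowerSeriesAt_zero (a := 1 / 2)).isBigO_sub_partialSum_pow n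
  have h2 : (fun y : ℝ => ‖y‖ ^ n) =O[𝓝 0] fun y : ℝ => y ^ n := by
    refine IsBigO.of_bound 1 (Eventually.of_forall fun y => ?_)
    simp
  refine (h.congr_left (fun y => ?_)).trans h2
  rw [Real.sqrt_eq_rpow, zero_add]
  congr 1
  rw [FormalMultilinearSeries.partialSum]
  refine Finset.sum_congr rfl (fun i _ => ?_)
  rw [p1_beta_choose, binomialSeries_apply]
  simp

/-- the terms of the expansion -/
private def p1f (v : ℚ) (i j l : ℕ) : ℚ :=
  beta i * (i.choose (2 * j) : ℚ) * 4 ^ j * (j.choose l : ℚ) * v ^ l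

private lemma p1_coef (v : ℚ) (m n : ℕ) (hn : 2 * m < n) :
    ∑ i ∈ range n, ∑ j ∈ range n, ∑ l ∈ range n, (if i - j + l = m then p1f v i j l else 0) =
      qq v m := by
  have h1 : ∀ l ∈ range n, ∀ j ∈ range n,
      ∑ i ∈ range n, (if i - j + l = m then p1f v i j l else 0) =
        if l ∈ range (m / 2 + 1) ∧ j ∈ range (m + 1) then p1f v (m + j - l) j l else 0 := by
    intro l _ j _
    by_cases hlj : l ≤ j
    · rw [Finset.sum_eq_single (m + j - l)]
      · by_cases hc : l ∈ range (m / 2 + 1) ∧ j ∈ range (m + 1)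
        · rw [if_pos hc, if_pos]
          simp only [mem_range] at hc
          omega
        · rw [if_neg hc]
          by_cases h2 : 2 * j ≤ m + j - l
          · exfalso
            apply hc
            simp only [mem_range]
            omega
          · split_ifs
            · rw [p1f, Nat.choose_eq_zero_of_lt (by omega)]
              simp
            · rfl
      · intro i _ hne
        split_ifs with h
        · by_cases h2 : 2 * j ≤ i
          · exfalso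
            omega
          · rw [p1f, Nat.choose_eq_zero_of_lt (by omega)]
            simp
        · rfl
      · intro hnot
        simp only [mem_range, not_lt] at hnot
        split_ifs with h
        · by_cases h2 : 2 * j ≤ m + j - l
          · exfalso
            omega
          · rw [p1f, Nat.choose_eq_zero_of_lt (by omega)]
            simp
        · rfl
    · have h0 : ∀ i, p1f v i j l = 0 := by
        intro i
        rw [p1f, Nat.choose_eq_zero_of_lt (show j < l by omega)]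
        simp
      simp [h0]
  calc ∑ i ∈ range n, ∑ j ∈ range n, ∑ l ∈ range n, (if i - j + l = m then p1f v i j l else 0)
      = ∑ l ∈ range n, ∑ j ∈ range n, ∑ i ∈ range n,
          (if i - j + l = m then p1f v i j l else 0) := by
        rw [Finset.sum_comm]
        rw [Finset.sum_congr rfl (fun j _ => Finset.sum_comm)]
        rw [Finset.sum_comm]
    _ = ∑ l ∈ range n, ∑ j ∈ range n,
          (if l ∈ range (m / 2 + 1) ∧ j ∈ range (m + 1) then p1f v (m + j - l) j l else 0) :=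
        Finset.sum_congr rfl fun l hl => Finset.sum_congr rfl fun j hj => h1 l hl j hj
    _ = ∑ l ∈ range (m / 2 + 1), ∑ j ∈ range (m + 1), p1f v (m + j - l) j l := by
        have hs1 : range (m / 2 + 1) ⊆ range n := by
          intro x; simp only [mem_range]; omega
        have hs2 : range (m + 1) ⊆ range n := by
          intro x; simp only [mem_range]; omega
        rw [← Finset.sum_subset hs1]
        · refine Finset.sum_congr rfl fun l hl => ?_
          rw [← Finset.sum_subset hs2]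
          · refine Finset.sum_congr rfl fun j hj => ?_
            rw [if_pos ⟨hl, hj⟩]
          · intro j _ hj
            rw [if_neg (fun h => hj h.2)]
        · intro l _ hl
          refine Finset.sum_eq_zero fun j _ => ?_
          rw [if_neg (fun h => hl h.1)]
    _ = qq v m := by
        rw [qq]
        refine Finset.sum_congr rfl fun l _ => ?_
        rw [gam, Finset.sum_mul]
        refine Finset.sum_congr rfl fun j _ => ?_
        rw [p1f]

private lemma p1_even_odd {M : Type*} [AddCommMonoid M] (g : ℕ → M) (n : ℕ) :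
    ∑ r ∈ range (2 * n), g r = ∑ j ∈ range n, (g (2 * j) + g (2 * j + 1)) := by
  induction n with
  | zero => simp
  | succ n ih =>
    rw [show 2 * (n + 1) = 2 * n + 1 + 1 by ring, Finset.sum_range_succ, Finset.sum_range_succ, ih,
      Finset.sum_range_succ, add_assoc]

private lemma p1_pow_ext (x y : ℝ) (i N : ℕ) (h : i < N) :
    (x + y) ^ i = ∑ r ∈ range N, x ^ r * y ^ (i - r) * (i.choose r : ℝ) := by
  rw [add_pow]
  refine Finset.sum_subset ?_ ?_
  · intro r; simp only [mem_range]; omega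
  · intro r _ hr
    simp only [mem_range, not_lt] at hr
    rw [Nat.choose_eq_zero_of_lt (by omega)]
    simp

private lemma p1_avg (z w v : ℝ) (hw : w ^ 2 = z + v * z ^ 2) (i n : ℕ) (h : i < n) :
    ((z + 2 * w) ^ i + (z - 2 * w) ^ i) / 2 =
      ∑ j ∈ range n, ∑ l ∈ range n,
        (i.choose (2 * j) : ℝ) * 4 ^ j * (j.choose l : ℝ) * v ^ l * z ^ (i - j + l) := by
  have e1 : (z + 2 * w) ^ i = ∑ r ∈ range (2 * n), (2 * w) ^ r * z ^ (i - r) * (i.choose r : ℝ) := by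
    rw [add_comm, p1_pow_ext _ _ i (2 * n) (by omega)]
  have e2 : (z - 2 * w) ^ i = ∑ r ∈ range (2 * n), (-(2 * w)) ^ r * z ^ (i - r) * (i.choose r : ℝ) := by
    rw [show z - 2 * w = -(2 * w) + z by ring, p1_pow_ext _ _ i (2 * n) (by omega)]
  rw [e1, e2, p1_even_odd, p1_even_odd, ← Finset.sum_add_distrib, Finset.sum_div]
  refine Finset.sum_congr rfl fun j hj => ?_
  have h3 : (-(2 * w)) ^ (2 * j) = 4 ^ j * (z + v * z ^ 2) ^ j := by
    rw [pow_mul, neg_sq, mul_pow, hw, mul_pow]; norm_num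
  have h4 : (2 * w) ^ (2 * j) = 4 ^ j * (z + v * z ^ 2) ^ j := by
    rw [pow_mul, mul_pow, hw, mul_pow]; norm_num
  have h5 : (-(2 * w)) ^ (2 * j + 1) = - (2 * w) ^ (2 * j + 1) := by
    rw [Odd.neg_pow ⟨j, rfl⟩]
  rw [h5, h3, h4]
  have h6 : (z + v * z ^ 2) ^ j = ∑ l ∈ range n, v ^ l * z ^ (j + l) * (j.choose l : ℝ) := by
    rw [add_comm, p1_pow_ext _ _ j n (by simpa using hj)]
    refine Finset.sum_congr rfl fun l hl => ?_
    by_cases hlj : l ≤ j
    · rw [mul_pow, ← pow_mul, show j + l = 2 * l + (j - l) by omega, pow_add]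
      ring
    · rw [Nat.choose_eq_zero_of_lt (by omega)]
      simp
  rw [h6]
  have h7 : (4 ^ j * ∑ l ∈ range n, v ^ l * z ^ (j + l) * (j.choose l : ℝ)) * z ^ (i - 2 * j) *
      (i.choose (2 * j) : ℝ) = ∑ l ∈ range n,
        (i.choose (2 * j) : ℝ) * 4 ^ j * (j.choose l : ℝ) * v ^ l * z ^ (i - j + l) := by
    rw [Finset.mul_sum, Finset.sum_mul, Finset.sum_mul]
    refine Finset.sum_congr rfl fun l hl => ?_
    by_cases h2 : 2 * j ≤ i
    · rw [show i - j + l = (j + l) + (i - 2 * j) by omega, pow_add z (j + l)]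
      ring
    · rw [Nat.choose_eq_zero_of_lt (show i < 2 * j by omega)]
      simp
  linear_combination h7

private lemma p1_pow_isBigO {a b : ℕ} (h : b ≤ a) :
    (fun z : ℝ => z ^ a) =O[𝓝[>] 0] fun z => z ^ b := by
  have h1 : ∀ᶠ z : ℝ in 𝓝[>] 0, z < 1 := by
    exact nhdsWithin_le_nhds (Iio_mem_nhds one_pos)
  refine IsBigO.of_bound 1 ?_
  filter_upwards [h1, self_mem_nhdsWithin] with z hz1 hz0
  have hz0' : (0 : ℝ) < z := hz0
  rw [one_mul, norm_pow, norm_pow, Real.norm_of_nonneg hz0'.le]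
  exact pow_le_pow_of_le_one hz0'.le hz1.le h

private noncomputable def p1U (v z : ℝ) : ℝ :=
  (√(1 + (z + 2 * √(z + v * z ^ 2))) + √(1 + (z - 2 * √(z + v * z ^ 2)))) / 2

private lemma p1_w_bound (v : ℝ) (hv : 0 ≤ v) (s : ℝ) (hs : |s| ≤ 2) :
    (fun z : ℝ => z + s * √(z + v * z ^ 2)) =O[𝓝[>] 0] fun z => √z := by
  have h1 : ∀ᶠ z : ℝ in 𝓝[>] 0, z < 1 := nhdsWithin_le_nhds (Iio_mem_nhds one_pos)
  refine IsBigO.of_bound (1 + 2 * √(1 + v)) ?_
  filter_upwards [h1, self_mem_nhdsWithin] with z hz1 hz0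
  have hz0' : (0 : ℝ) < z := hz0
  have hsq : √z * √z = z := Real.mul_self_sqrt hz0'.le
  have h2 : z ≤ √z := by
    have : √z ≤ 1 := Real.sqrt_le_one.mpr hz1.le
    nlinarith [Real.sqrt_nonneg z]
  have h3 : √(z + v * z ^ 2) ≤ √(1 + v) * √z := by
    rw [← Real.sqrt_mul (by positivity)]
    apply Real.sqrt_le_sqrt
    nlinarith [mul_nonneg hv hz0'.le]
  rw [Real.norm_of_nonneg (Real.sqrt_nonneg z), Real.norm_eq_abs]
  calc |z + s * √(z + v * z ^ 2)| ≤ |z| + |s * √(z + v * z ^ 2)| := abs_add_le _ _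
    _ = z + |s| * √(z + v * z ^ 2) := by
        rw [abs_of_pos hz0', abs_mul, abs_of_nonneg (Real.sqrt_nonneg (z + v * z ^ 2))]
    _ ≤ √z + 2 * (√(1 + v) * √z) := by
        have := Real.sqrt_nonneg (z + v * z ^ 2)
        nlinarith [abs_nonneg s]
    _ = (1 + 2 * √(1 + v)) * √z := by ring

private lemma p1_sqrt_tendsto : Tendsto (fun z : ℝ => √z) (𝓝[>] 0) (𝓝 0) := by
  have : Tendsto (fun z : ℝ => √z) (𝓝 0) (𝓝 √0) := Real.continuous_sqrt.continuousAt
  rw [Real.sqrt_zero] at this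
  exact this.mono_left nhdsWithin_le_nhds

private lemma p1_half (k : ℕ) (v : ℝ) (hv : 0 ≤ v) (s : ℝ) (hs : |s| ≤ 2) :
    (fun z : ℝ => √(1 + (z + s * √(z + v * z ^ 2))) -
      ∑ i ∈ range (4 * k + 2), (beta i : ℝ) * (z + s * √(z + v * z ^ 2)) ^ i) =O[𝓝[>] 0]
      fun z => z ^ (2 * k + 1) := by
  have hb := p1_w_bound v hv s hs
  have ht : Tendsto (fun z : ℝ => z + s * √(z + v * z ^ 2)) (𝓝[>] 0) (𝓝 0) :=
    hb.trans_tendsto p1_sqrt_tendsto
  have h1 := (p1_sqrt_taylor (4 * k + 2)).comp_tendsto ht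
  refine h1.trans ?_
  have h2 := hb.pow (4 * k + 2)
  refine h2.congr' (Eventually.of_forall fun z => rfl) ?_
  filter_upwards [self_mem_nhdsWithin] with z hz0
  have hz0' : (0 : ℝ) < z := hz0
  rw [show 4 * k + 2 = 2 * (2 * k + 1) by ring, pow_mul, Real.sq_sqrt hz0'.le]

private lemma p1_U (k v : ℕ) :
    (fun z : ℝ => p1U v z - ∑ m ∈ range (2 * k + 1), (qq v m : ℝ) * z ^ m) =O[𝓝[>] 0]
      fun z => z ^ (2 * k + 1) := by
  set n := 4 * k + 2 with hn
  have hp := p1_half k v (Nat.cast_nonneg v) 2 (by norm_num)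
  have hm := p1_half k v (Nat.cast_nonneg v) (-2) (by norm_num)
  have h1 := (hp.add hm).const_mul_left (1 / 2)
  have h2 : (fun z : ℝ => ∑ i ∈ range n, ∑ j ∈ range n, ∑ l ∈ range n,
      (if i - j + l < 2 * k + 1 then 0 else (p1f v i j l : ℝ) * z ^ (i - j + l))) =O[𝓝[>] 0]
      fun z => z ^ (2 * k + 1) := by
    refine IsBigO.fun_sum fun i _ => IsBigO.fun_sum fun j _ => IsBigO.fun_sum fun l _ => ?_
    split_ifs with h
    · exact isBigO_zero _ _
    · exact (p1_pow_isBigO (not_lt.mp h)).const_mul_left _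
  refine (h1.add h2).congr' ?_ EventuallyEq.rfl
  filter_upwards [self_mem_nhdsWithin] with z hz0
  have hz0' : (0 : ℝ) < z := hz0
  have hw : √(z + (v : ℝ) * z ^ 2) ^ 2 = z + v * z ^ 2 := Real.sq_sqrt (by positivity)
  set w := √(z + (v : ℝ) * z ^ 2) with hwdef
  have e1 : (∑ i ∈ range n, (beta i : ℝ) * (z + 2 * w) ^ i +
      ∑ i ∈ range n, (beta i : ℝ) * (z + -2 * w) ^ i) / 2 =
      ∑ i ∈ range n, ∑ j ∈ range n, ∑ l ∈ range n, (p1f v i j l : ℝ) * z ^ (i - j + l) := by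
    rw [← Finset.sum_add_distrib, Finset.sum_div]
    refine Finset.sum_congr rfl fun i hi => ?_
    have h3 := p1_avg z w v hw i n (by simpa using hi)
    have h4 : ((beta i : ℝ) * (z + 2 * w) ^ i + (beta i : ℝ) * (z + -2 * w) ^ i) / 2 =
        beta i * (((z + 2 * w) ^ i + (z - 2 * w) ^ i) / 2) := by
      rw [show z + -2 * w = z - 2 * w by ring]; ring
    rw [h4, h3, Finset.mul_sum]
    refine Finset.sum_congr rfl fun j _ => ?_
    rw [Finset.mul_sum]
    refine Finset.sum_congr rfl fun l _ => ?_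
    rw [p1f]
    push_cast
    ring
  have e2 : ∑ m ∈ range (2 * k + 1), (qq v m : ℝ) * z ^ m =
      ∑ i ∈ range n, ∑ j ∈ range n, ∑ l ∈ range n,
      (if i - j + l < 2 * k + 1 then (p1f v i j l : ℝ) * z ^ (i - j + l) else 0) := by
    have h5 : ∀ m ∈ range (2 * k + 1), (qq v m : ℝ) * z ^ m =
        ∑ i ∈ range n, ∑ j ∈ range n, ∑ l ∈ range n,
          (if i - j + l = m then (p1f v i j l : ℝ) * z ^ (i - j + l) else 0) := by
      intro m hm
      simp only [mem_range] at hm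
      rw [← p1_coef v m n (by omega)]
      push_cast
      rw [Finset.sum_mul]
      refine Finset.sum_congr rfl fun i _ => ?_
      rw [Finset.sum_mul]
      refine Finset.sum_congr rfl fun j _ => ?_
      rw [Finset.sum_mul]
      refine Finset.sum_congr rfl fun l _ => ?_
      split_ifs with h
      · rw [h]
      · simp
    rw [Finset.sum_congr rfl h5, Finset.sum_comm]
    refine Finset.sum_congr rfl fun i _ => ?_
    rw [Finset.sum_comm]
    refine Finset.sum_congr rfl fun j _ => ?_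
    rw [Finset.sum_comm]
    refine Finset.sum_congr rfl fun l _ => ?_
    rw [Finset.sum_ite_eq]
    simp only [mem_range]
  have e3 : ∑ i ∈ range n, ∑ j ∈ range n, ∑ l ∈ range n, (p1f v i j l : ℝ) * z ^ (i - j + l) =
      (∑ i ∈ range n, ∑ j ∈ range n, ∑ l ∈ range n,
        (if i - j + l < 2 * k + 1 then (p1f v i j l : ℝ) * z ^ (i - j + l) else 0)) +
      ∑ i ∈ range n, ∑ j ∈ range n, ∑ l ∈ range n,
        (if i - j + l < 2 * k + 1 then 0 else (p1f v i j l : ℝ) * z ^ (i - j + l)) := by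
    simp only [← Finset.sum_add_distrib]
    refine Finset.sum_congr rfl fun i _ => Finset.sum_congr rfl fun j _ =>
      Finset.sum_congr rfl fun l _ => ?_
    split_ifs <;> simp
  have e4 : p1U v z = (√(1 + (z + 2 * w)) + √(1 + (z + -2 * w))) / 2 := by
    rw [p1U, ← hwdef, show z + -2 * w = z - 2 * w by ring]
  rw [e4, e2]
  have e5 := e1.trans e3
  linarith

private lemma p1_V (k : ℕ) (y : ℝ) :
    (fun z : ℝ => √(1 - y * z) - ∑ m ∈ range (2 * k + 1), (-1) ^ m * (beta m : ℝ) * y ^ m * z ^ m)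
      =O[𝓝[>] 0] fun z => z ^ (2 * k + 1) := by
  have ht : Tendsto (fun z : ℝ => -(y * z)) (𝓝[>] 0) (𝓝 0) := by
    have : Tendsto (fun z : ℝ => -(y * z)) (𝓝 0) (𝓝 (-(y * 0))) := by
      exact (Continuous.tendsto (by fun_prop) 0)
    simp only [mul_zero, neg_zero] at this
    exact this.mono_left nhdsWithin_le_nhds
  have h1 := (p1_sqrt_taylor (2 * k + 1)).comp_tendsto ht
  have h2 : (fun z : ℝ => (-(y * z)) ^ (2 * k + 1)) =O[𝓝[>] 0] fun z => z ^ (2 * k + 1) := by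
    have : (fun z : ℝ => (-(y * z)) ^ (2 * k + 1)) =
        fun z => (-y) ^ (2 * k + 1) * z ^ (2 * k + 1) := by
      funext z; rw [← mul_pow]; ring
    rw [this]
    exact (isBigO_refl _ _).const_mul_left _
  refine (h1.trans h2).congr_left fun z => ?_
  simp only [Function.comp]
  rw [← sub_eq_add_neg]
  congr 1
  refine Finset.sum_congr rfl fun m _ => ?_
  rw [neg_pow, mul_pow]
  ring

/-- the defect function near `0` -/
private lemma p1_G (k v : ℕ) {ι : Type} [Fintype ι] (y lam : ι → ℚ)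
    (hex : ∀ m < 2 * k, qq v m = (-1) ^ m * beta m * ∑ j, lam j * y j ^ m)
    (hne : qq v (2 * k) ≠ (-1) ^ (2 * k) * beta (2 * k) * ∑ j, lam j * y j ^ (2 * k)) :
    ∃ C : ℝ, 0 < C ∧ ∀ᶠ z : ℝ in 𝓝[>] 0,
      p1U v z - ∑ j, (lam j : ℝ) * √(1 - (y j : ℝ) * z) ≠ 0 ∧
      |p1U v z - ∑ j, (lam j : ℝ) * √(1 - (y j : ℝ) * z)| ≤ C * z ^ (2 * k) := by
  set c : ℚ := qq v (2 * k) - (-1) ^ (2 * k) * beta (2 * k) * ∑ j, lam j * y j ^ (2 * k) with hc
  have hc0 : (c : ℝ) ≠ 0 := by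
    rw [Ne, Rat.cast_eq_zero]
    exact sub_ne_zero.mpr hne
  have h1 := p1_U k v
  have h2 : (fun z : ℝ => ∑ j, (lam j : ℝ) * (√(1 - (y j : ℝ) * z) -
      ∑ m ∈ range (2 * k + 1), (-1) ^ m * (beta m : ℝ) * (y j : ℝ) ^ m * z ^ m)) =O[𝓝[>] 0]
      fun z => z ^ (2 * k + 1) :=
    IsBigO.fun_sum fun j _ => (p1_V k (y j)).const_mul_left _
  have h3 := h1.sub h2
  have h4 : ∀ z : ℝ, p1U v z - ∑ m ∈ range (2 * k + 1), (qq v m : ℝ) * z ^ m -
      ∑ j, (lam j : ℝ) * (√(1 - (y j : ℝ) * z) -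
      ∑ m ∈ range (2 * k + 1), (-1) ^ m * (beta m : ℝ) * (y j : ℝ) ^ m * z ^ m) =
      (p1U v z - ∑ j, (lam j : ℝ) * √(1 - (y j : ℝ) * z)) - c * z ^ (2 * k) := by
    intro z
    have e1 : ∑ m ∈ range (2 * k + 1), (qq v m : ℝ) * z ^ m =
        (∑ m ∈ range (2 * k), ((-1) ^ m * (beta m : ℝ) * ∑ j, (lam j : ℝ) * (y j : ℝ) ^ m) * z ^ m)
          + (qq v (2 * k) : ℝ) * z ^ (2 * k) := by
      rw [Finset.sum_range_succ]
      congr 1
      refine Finset.sum_congr rfl fun m hm => ?_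
      rw [hex m (by simpa using hm)]
      push_cast
      ring
    have e2 : ∑ j, (lam j : ℝ) * (√(1 - (y j : ℝ) * z) -
        ∑ m ∈ range (2 * k + 1), (-1) ^ m * (beta m : ℝ) * (y j : ℝ) ^ m * z ^ m) =
        ∑ j, (lam j : ℝ) * √(1 - (y j : ℝ) * z) -
        ∑ m ∈ range (2 * k + 1), ((-1) ^ m * (beta m : ℝ) * ∑ j, (lam j : ℝ) * (y j : ℝ) ^ m)
          * z ^ m := by
      simp only [mul_sub, Finset.sum_sub_distrib]
      congr 1
      rw [Finset.sum_congr rfl (fun j _ => Finset.mul_sum _ _ _), Finset.sum_comm]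
      refine Finset.sum_congr rfl fun m _ => ?_
      rw [Finset.mul_sum, Finset.sum_mul]
      refine Finset.sum_congr rfl fun j _ => ?_
      ring
    rw [e1, e2, Finset.sum_range_succ (fun m => ((-1) ^ m * (beta m : ℝ) *
      ∑ j, (lam j : ℝ) * (y j : ℝ) ^ m) * z ^ m), hc]
    push_cast
    ring
  have h5 := h3.congr_left h4
  obtain ⟨B, hB⟩ := h5.bound
  have h6 : ∀ᶠ z : ℝ in 𝓝[>] 0, z < min 1 (|(c : ℝ)| / (2 * (|B| + 1))) :=
    nhdsWithin_le_nhds (Iio_mem_nhds (lt_min one_pos (by positivity)))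
  refine ⟨|(c : ℝ)| + |B| + 1, by positivity, ?_⟩
  filter_upwards [hB, h6, self_mem_nhdsWithin] with z hz1 hz2 hz0
  have hz0' : (0 : ℝ) < z := hz0
  have hz3 : z < 1 := lt_of_lt_of_le hz2 (min_le_left _ _)
  have hz4 : z < |(c : ℝ)| / (2 * (|B| + 1)) := lt_of_lt_of_le hz2 (min_le_right _ _)
  set g := p1U v z - ∑ j, (lam j : ℝ) * √(1 - (y j : ℝ) * z) with hg
  have hzk : 0 < z ^ (2 * k) := by positivity
  have h7 : |g - c * z ^ (2 * k)| ≤ |B| * z * z ^ (2 * k) := by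
    have h8 : ‖z ^ (2 * k + 1)‖ = z * z ^ (2 * k) := by
      rw [Real.norm_of_nonneg (by positivity)]; ring
    rw [Real.norm_eq_abs, h8] at hz1
    refine hz1.trans ?_
    rw [mul_assoc]
    exact mul_le_mul_of_nonneg_right (le_abs_self B) (by positivity)
  have h9 : |B| * z < |(c : ℝ)| / 2 + 0 * z := by
    have h10 : (|B| + 1) * z < |(c : ℝ)| / 2 := by
      rw [lt_div_iff₀ (by positivity)] at hz4
      linarith
    nlinarith
  constructor
  · intro h0
    rw [h0, zero_sub, abs_neg, abs_mul, abs_of_pos hzk] at h7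
    have := lt_of_mul_lt_mul_right (lt_of_le_of_lt h7 (mul_lt_mul_of_pos_right h9 hzk)) hzk.le
    have h11 : 0 < |(c : ℝ)| := abs_pos.mpr hc0
    linarith
  · have h12 : |g| ≤ |c * z ^ (2 * k)| + |g - c * z ^ (2 * k)| := by
      have := abs_add_le ((c : ℝ) * z ^ (2 * k)) (g - c * z ^ (2 * k))
      rwa [add_sub_cancel] at this
    rw [abs_mul, abs_of_pos hzk] at h12
    have h13 : |B| * z * z ^ (2 * k) ≤ |B| * z ^ (2 * k) := by
      apply mul_le_mul_of_nonneg_right _ hzk.le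
      nlinarith [abs_nonneg B]
    nlinarith

/-- the function `F(t)` -/
private lemma p1_F (k v : ℕ) {ι : Type} [Fintype ι] (y lam : ι → ℚ)
    (hex : ∀ m < 2 * k, qq v m = (-1) ^ m * beta m * ∑ j, lam j * y j ^ m)
    (hne : qq v (2 * k) ≠ (-1) ^ (2 * k) * beta (2 * k) * ∑ j, lam j * y j ^ (2 * k)) :
    ∃ C : ℝ, 0 < C ∧ ∀ᶠ t : ℕ in atTop,
      (√(((t : ℝ) + 1) ^ 2 - v) + √(((t : ℝ) - 1) ^ 2 - v)) / 2 -
        ∑ j, (lam j : ℝ) * √((t : ℝ) ^ 2 - v - y j) ≠ 0 ∧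
      |(√(((t : ℝ) + 1) ^ 2 - v) + √(((t : ℝ) - 1) ^ 2 - v)) / 2 -
        ∑ j, (lam j : ℝ) * √((t : ℝ) ^ 2 - v - y j)| ≤ C * (t : ℝ) / ((t : ℝ) ^ 2) ^ (2 * k) := by
  obtain ⟨C, hC, h⟩ := p1_G k v y lam hex hne
  have ht : Tendsto (fun t : ℕ => ((t : ℝ) ^ 2 - v)) atTop atTop := by
    have h1 : Tendsto (fun t : ℕ => (t : ℝ) ^ 2) atTop atTop :=
      (tendsto_pow_atTop two_ne_zero).comp tendsto_natCast_atTop_atTop
    exact tendsto_atTop_add_const_right _ (-(v : ℝ)) h1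
  have ht2 : Tendsto (fun t : ℕ => ((t : ℝ) ^ 2 - v)⁻¹) atTop (𝓝[>] 0) :=
    tendsto_inv_atTop_nhdsGT_zero.comp ht
  have h2 := ht2.eventually h
  have h3 : ∀ᶠ t : ℕ in atTop, (v : ℝ) + 1 ≤ (t : ℝ) ^ 2 - v := ht.eventually_ge_atTop _
  refine ⟨C * 2 ^ (2 * k), by positivity, ?_⟩
  filter_upwards [h2, h3, eventually_ge_atTop 1] with t h4 h5 ht1
  have ht1' : (1 : ℝ) ≤ t := by exact_mod_cast ht1
  set T : ℝ := (t : ℝ) ^ 2 - v with hT
  have hv0 : (0 : ℝ) ≤ v := Nat.cast_nonneg v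
  have hT0 : 0 < T := by linarith
  have hw : T * √(T⁻¹ + v * T⁻¹ ^ 2) = t := by
    have e1 : T = √(T ^ 2) := (Real.sqrt_sq hT0.le).symm
    calc T * √(T⁻¹ + v * T⁻¹ ^ 2) = √(T ^ 2) * √(T⁻¹ + v * T⁻¹ ^ 2) := by rw [← e1]
      _ = √(T ^ 2 * (T⁻¹ + v * T⁻¹ ^ 2)) := (Real.sqrt_mul (by positivity) _).symm
      _ = √((t : ℝ) ^ 2) := by
          congr 1
          have : T ≠ 0 := hT0.ne'
          field_simp
          rw [hT]; ring
      _ = t := Real.sqrt_sq (by linarith)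
  have hU : √T * p1U v T⁻¹ = (√(((t : ℝ) + 1) ^ 2 - v) + √(((t : ℝ) - 1) ^ 2 - v)) / 2 := by
    rw [p1U, mul_div_assoc', mul_add, ← Real.sqrt_mul hT0.le, ← Real.sqrt_mul hT0.le]
    have e1 : T * (1 + (T⁻¹ + 2 * √(T⁻¹ + v * T⁻¹ ^ 2))) = ((t : ℝ) + 1) ^ 2 - v := by
      have : T * (1 + (T⁻¹ + 2 * √(T⁻¹ + v * T⁻¹ ^ 2))) =
          T + T * T⁻¹ + 2 * (T * √(T⁻¹ + v * T⁻¹ ^ 2)) := by ring
      rw [this, hw, mul_inv_cancel₀ hT0.ne', hT]; ring
    have e2 : T * (1 + (T⁻¹ - 2 * √(T⁻¹ + v * T⁻¹ ^ 2))) = ((t : ℝ) - 1) ^ 2 - v := by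
      have : T * (1 + (T⁻¹ - 2 * √(T⁻¹ + v * T⁻¹ ^ 2))) =
          T + T * T⁻¹ - 2 * (T * √(T⁻¹ + v * T⁻¹ ^ 2)) := by ring
      rw [this, hw, mul_inv_cancel₀ hT0.ne', hT]; ring
    rw [e1, e2]
  have hV : √T * ∑ j, (lam j : ℝ) * √(1 - (y j : ℝ) * T⁻¹) =
      ∑ j, (lam j : ℝ) * √(T - y j) := by
    rw [Finset.mul_sum]
    refine Finset.sum_congr rfl fun j _ => ?_
    rw [mul_left_comm, ← Real.sqrt_mul hT0.le]
    congr 2
    rw [mul_sub, mul_one, mul_left_comm, mul_inv_cancel₀ hT0.ne', mul_one]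
  have hF : (√(((t : ℝ) + 1) ^ 2 - v) + √(((t : ℝ) - 1) ^ 2 - v)) / 2 -
      ∑ j, (lam j : ℝ) * √(T - y j) =
      √T * (p1U v T⁻¹ - ∑ j, (lam j : ℝ) * √(1 - (y j : ℝ) * T⁻¹)) := by
    rw [mul_sub, hU, hV]
  rw [hF]
  refine ⟨mul_ne_zero (Real.sqrt_pos.mpr hT0).ne' h4.1, ?_⟩
  rw [abs_mul, abs_of_nonneg (Real.sqrt_nonneg T)]
  have h6 : √T ≤ t := by
    have e3 : √T ≤ √((t : ℝ) ^ 2) := Real.sqrt_le_sqrt (by linarith)
    rwa [Real.sqrt_sq (by linarith)] at e3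
  have h7 : T⁻¹ ≤ 2 / (t : ℝ) ^ 2 := by
    rw [inv_eq_one_div, div_le_div_iff₀ hT0 (by positivity)]
    linarith
  calc √T * |p1U v T⁻¹ - ∑ j, (lam j : ℝ) * √(1 - (y j : ℝ) * T⁻¹)|
      ≤ t * (C * T⁻¹ ^ (2 * k)) := mul_le_mul h6 h4.2 (abs_nonneg _) (by linarith)
    _ ≤ t * (C * (2 / (t : ℝ) ^ 2) ^ (2 * k)) := by
        have := pow_le_pow_left₀ (by positivity) h7 (2 * k)
        gcongr
    _ = C * 2 ^ (2 * k) * t / ((t : ℝ) ^ 2) ^ (2 * k) := by
        rw [div_pow]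
        ring

private lemma p1_den {ι : Type} [Fintype ι] (y lam : ι → ℚ) :
    ∃ d : ℕ, 0 < d ∧ (∀ j, ∃ L : ℤ, (L : ℚ) = d * lam j) ∧ (∀ j, ∃ Y : ℤ, (Y : ℚ) = d * y j) := by
  classical
  refine ⟨∏ j, ((lam j).den * (y j).den), Finset.prod_pos fun j _ =>
    Nat.mul_pos (lam j).den_pos (y j).den_pos, fun j => ?_, fun j => ?_⟩
  · obtain ⟨e, he⟩ : (lam j).den ∣ ∏ j, ((lam j).den * (y j).den) :=
      (Dvd.intro _ rfl).trans (Finset.dvd_prod_of_mem _ (Finset.mem_univ j))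
    refine ⟨(lam j).num * e, ?_⟩
    rw [he]
    have := Rat.mul_den_eq_num (lam j)
    push_cast
    linear_combination (-(e : ℚ)) * this
  · obtain ⟨e, he⟩ : (y j).den ∣ ∏ j, ((lam j).den * (y j).den) :=
      (Dvd.intro_left _ rfl).trans (Finset.dvd_prod_of_mem _ (Finset.mem_univ j))
    refine ⟨(y j).num * e, ?_⟩
    rw [he]
    have := Rat.mul_den_eq_num (y j)
    push_cast
    linear_combination (-(e : ℚ)) * this

private lemma p1_mem (n k : ℕ) {α β : Type} [Fintype α] [Fintype β] (hα : Fintype.card α = k)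
    (hβ : Fintype.card β = k) (a : α → ℕ) (b : β → ℕ) (ha : ∀ x, 1 ≤ a x ∧ a x ≤ n)
    (hb : ∀ x, 1 ≤ b x ∧ b x ≤ n)
    (hne : (∑ x, √(a x : ℝ)) ≠ ∑ x, √(b x : ℝ)) :
    |(∑ x, √(a x : ℝ)) - ∑ x, √(b x : ℝ)| ∈ gaps n k := by
  let e1 : Fin k ≃ α := (Fintype.equivFinOfCardEq hα).symm
  let e2 : Fin k ≃ β := (Fintype.equivFinOfCardEq hβ).symm
  have h1 : S (fun i => a (e1 i)) = ∑ x, √(a x : ℝ) := by
    rw [S]
    exact Equiv.sum_comp e1 (fun x => √(a x : ℝ))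
  have h2 : S (fun i => b (e2 i)) = ∑ x, √(b x : ℝ) := by
    rw [S]
    exact Equiv.sum_comp e2 (fun x => √(b x : ℝ))
  refine ⟨fun i => a (e1 i), fun i => b (e2 i), fun i => ha _, fun i => hb _, ?_, ?_⟩
  · rw [h1, h2]; exact hne
  · rw [h1, h2]

private lemma p1_gap (k : ℕ) (hk : 2 ≤ k) (v : ℕ) {ι : Type} [Fintype ι] (y lam : ι → ℚ)
    (hpos : (Finset.univ.filter fun j => 0 < lam j).card = k)
    (hneg : (Finset.univ.filter fun j => lam j < 0).card = k - 2) :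
    ∃ D : ℕ, ∃ C0 : ℕ, 0 < C0 ∧ ∀ᶠ t : ℕ in atTop, ∀ n : ℕ, C0 * t ^ 2 ≤ n →
      (√(((t : ℝ) + 1) ^ 2 - v) + √(((t : ℝ) - 1) ^ 2 - v)) / 2 -
        ∑ j, (lam j : ℝ) * √((t : ℝ) ^ 2 - v - y j) ≠ 0 →
      2 * (D : ℝ) * |(√(((t : ℝ) + 1) ^ 2 - v) + √(((t : ℝ) - 1) ^ 2 - v)) / 2 -
        ∑ j, (lam j : ℝ) * √((t : ℝ) ^ 2 - v - y j)| ∈ gaps n k := by
  classical
  obtain ⟨d, hd, hL, hY⟩ := p1_den y lam
  choose L hL using hL
  choose Y hY using hY
  let R : ℕ := v + ∑ j, (Y j).natAbs + 2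
  let C0 : ℕ := 4 * d ^ 4 + ∑ j, 4 * (L j).natAbs ^ 2 * (d ^ 2 + d * (Y j).natAbs)
  have hdR : (1 : ℝ) ≤ d := by exact_mod_cast hd
  refine ⟨d ^ 2, C0, by positivity, ?_⟩
  filter_upwards [eventually_ge_atTop R] with t ht n hn hF
  have hYR : ∀ j, (Y j).natAbs ≤ ∑ j, (Y j).natAbs := fun j =>
    Finset.single_le_sum (f := fun j => (Y j).natAbs) (fun _ _ => Nat.zero_le _) (Finset.mem_univ j)
  have htv : v + 2 ≤ t := le_trans (by simp only [R]; omega) ht
  have htY : ∀ j, v + (Y j).natAbs + 2 ≤ t := fun j => by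
    have := hYR j
    exact le_trans (by simp only [R]; omega) ht
  -- the integers
  let bb : ι → ℤ := fun j => 4 * (L j) ^ 2 * (d ^ 2 * ((t : ℤ) ^ 2 - v) - d * Y j)
  have hin : ∀ j, (1 : ℤ) ≤ d ^ 2 * ((t : ℤ) ^ 2 - v) - d * Y j := by
    intro j
    have h1 : (v : ℤ) + |Y j| + 2 ≤ t := by
      have := htY j
      rw [← Int.natCast_natAbs]
      exact_mod_cast this
    have h2 : (1 : ℤ) ≤ d := by exact_mod_cast hd
    have h3 : |Y j| + 1 ≤ (t : ℤ) ^ 2 - v := by nlinarith [abs_nonneg (Y j)]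
    have h4 : Y j ≤ |Y j| := le_abs_self _
    have h5 : (d : ℤ) * Y j ≤ d * |Y j| := mul_le_mul_of_nonneg_left h4 (by linarith)
    have h6 : (d : ℤ) * (|Y j| + 1) ≤ d ^ 2 * ((t : ℤ) ^ 2 - v) := by
      have h7 : (d : ℤ) ≤ d ^ 2 := by nlinarith
      have h8 : (0 : ℤ) ≤ (t : ℤ) ^ 2 - v := by linarith [abs_nonneg (Y j)]
      calc (d : ℤ) * (|Y j| + 1) ≤ d * ((t : ℤ) ^ 2 - v) := mul_le_mul_of_nonneg_left h3 (by linarith)
        _ ≤ d ^ 2 * ((t : ℤ) ^ 2 - v) := mul_le_mul_of_nonneg_right h7 h8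
    nlinarith
  have hbb1 : ∀ j, lam j ≠ 0 → 1 ≤ bb j := by
    intro j hj
    have hLj : L j ≠ 0 := by
      intro h0
      have := hL j
      rw [h0, Int.cast_zero] at this
      have hd' : (d : ℚ) ≠ 0 := by exact_mod_cast hd.ne'
      exact hj (by simpa [hd'] using this.symm)
    have h1 : (1 : ℤ) ≤ (L j) ^ 2 := by
      have : 0 < (L j) ^ 2 := by positivity
      linarith
    have h2 := hin j
    simp only [bb]
    nlinarith
  have hbbC : ∀ j, bb j ≤ n := by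
    intro j
    have h0 : (4 * (L j).natAbs ^ 2 * (d ^ 2 + d * (Y j).natAbs)) * t ^ 2 ≤ n := by
      refine le_trans (Nat.mul_le_mul_right _ ?_) hn
      have := Finset.single_le_sum (f := fun j => 4 * (L j).natAbs ^ 2 * (d ^ 2 + d * (Y j).natAbs))
        (fun _ _ => Nat.zero_le _) (Finset.mem_univ j)
      simp only [C0]
      exact le_trans this (Nat.le_add_left _ _)
    have h1 : ((4 * (L j).natAbs ^ 2 * (d ^ 2 + d * (Y j).natAbs)) * t ^ 2 : ℤ) ≤ n := by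
      exact_mod_cast h0
    refine le_trans ?_ h1
    rw [Int.natCast_natAbs, Int.natCast_natAbs, sq_abs]
    simp only [bb]
    rw [mul_assoc (4 * (L j) ^ 2)]
    apply mul_le_mul_of_nonneg_left _ (by positivity)
    have h2 : -Y j ≤ |Y j| := neg_le_abs _
    have h3 : (1 : ℤ) ≤ (t : ℤ) ^ 2 := by
      have : (1 : ℤ) ≤ t := by exact_mod_cast (by omega : 1 ≤ t)
      nlinarith
    have h4 : (0 : ℤ) ≤ d := by positivity
    have h5 : (d : ℤ) * -Y j ≤ d * (|Y j| * (t : ℤ) ^ 2) := by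
      apply mul_le_mul_of_nonneg_left _ h4
      nlinarith [abs_nonneg (Y j)]
    have h6 : (0 : ℤ) ≤ (d : ℤ) ^ 2 * v := by positivity
    nlinarith
  have hbR : ∀ j, lam j ≠ 0 → √(((bb j).toNat : ℕ) : ℝ) =
      2 * (d : ℝ) ^ 2 * (|(lam j : ℝ)| * √((t : ℝ) ^ 2 - v - y j)) := by
    intro j hj
    have h1 : (((bb j).toNat : ℕ) : ℝ) = ((bb j : ℤ) : ℝ) := by
      have : (((bb j).toNat : ℕ) : ℤ) = bb j := Int.toNat_of_nonneg (by linarith [hbb1 j hj])
      exact_mod_cast this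
    have hLj : (L j : ℝ) = d * lam j := by exact_mod_cast hL j
    have hYj : (Y j : ℝ) = d * y j := by exact_mod_cast hY j
    have h2 : ((bb j : ℤ) : ℝ) = (2 * (d : ℝ) ^ 2 * |(lam j : ℝ)|) ^ 2 *
        ((t : ℝ) ^ 2 - v - y j) := by
      simp only [bb]
      push_cast
      rw [hLj, hYj, mul_pow (2 * (d : ℝ) ^ 2), sq_abs]
      ring
    rw [h1, h2, Real.sqrt_mul (by positivity), Real.sqrt_sq (by positivity)]
    ring
  -- the pair
  let aa : Fin 2 → ℕ := ![d ^ 4 * ((t + 1) ^ 2 - v), d ^ 4 * ((t - 1) ^ 2 - v)]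
  have hv1 : v + 1 ≤ (t + 1) ^ 2 := by nlinarith
  have hv2 : v + 1 ≤ (t - 1) ^ 2 := by
    obtain ⟨u, rfl⟩ : ∃ u, t = u + 1 := ⟨t - 1, by omega⟩
    simp only [Nat.add_sub_cancel]
    nlinarith
  have hd4 : 1 ≤ d ^ 4 := Nat.one_le_pow _ _ hd
  have hC4 : 4 * d ^ 4 * t ^ 2 ≤ n := by
    refine le_trans (Nat.mul_le_mul_right _ ?_) hn
    simp only [C0]
    exact Nat.le_add_right _ _
  have haa : ∀ x, 1 ≤ aa x ∧ aa x ≤ n := by
    intro x
    have hle1 : (t + 1) ^ 2 - v ≤ 4 * t ^ 2 := by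
      refine le_trans (Nat.sub_le _ _) ?_
      nlinarith
    have hle2 : (t - 1) ^ 2 - v ≤ 4 * t ^ 2 := by
      refine le_trans (Nat.sub_le _ _) ?_
      have : (t - 1) ^ 2 ≤ t ^ 2 := Nat.pow_le_pow_left (Nat.sub_le _ _) 2
      omega
    fin_cases x
    · constructor
      · simp only [aa]
        exact Nat.mul_pos hd4 (by omega)
      · refine le_trans ?_ hC4
        calc d ^ 4 * ((t + 1) ^ 2 - v) ≤ d ^ 4 * (4 * t ^ 2) := Nat.mul_le_mul_left _ hle1
          _ = 4 * d ^ 4 * t ^ 2 := by ring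
    · constructor
      · simp only [aa]
        exact Nat.mul_pos hd4 (by omega)
      · refine le_trans ?_ hC4
        calc d ^ 4 * ((t - 1) ^ 2 - v) ≤ d ^ 4 * (4 * t ^ 2) := Nat.mul_le_mul_left _ hle2
          _ = 4 * d ^ 4 * t ^ 2 := by ring
  have haR : ∑ x, √((aa x : ℕ) : ℝ) =
      (d : ℝ) ^ 2 * (√(((t : ℝ) + 1) ^ 2 - v) + √(((t : ℝ) - 1) ^ 2 - v)) := by
    have h1 : √((aa 0 : ℕ) : ℝ) = (d : ℝ) ^ 2 * √(((t : ℝ) + 1) ^ 2 - v) := by
      have : ((aa 0 : ℕ) : ℝ) = ((d : ℝ) ^ 2) ^ 2 * (((t : ℝ) + 1) ^ 2 - v) := by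
        simp only [aa, Matrix.cons_val_zero]
        rw [Nat.cast_mul, Nat.cast_sub (by omega)]
        push_cast
        ring
      rw [this, Real.sqrt_mul (by positivity), Real.sqrt_sq (by positivity)]
    have h2 : √((aa 1 : ℕ) : ℝ) = (d : ℝ) ^ 2 * √(((t : ℝ) - 1) ^ 2 - v) := by
      have : ((aa 1 : ℕ) : ℝ) = ((d : ℝ) ^ 2) ^ 2 * (((t : ℝ) - 1) ^ 2 - v) := by
        simp only [aa, Matrix.cons_val_one, Matrix.cons_val_fin_one]
        rw [Nat.cast_mul, Nat.cast_sub (by omega)]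
        push_cast
        rw [Nat.cast_sub (by omega)]
        push_cast
        ring
      rw [this, Real.sqrt_mul (by positivity), Real.sqrt_sq (by positivity)]
    rw [Fin.sum_univ_two, h1, h2]
    ring
  -- index types
  let α := Fin 2 ⊕ {j : ι // lam j < 0}
  let β := {j : ι // 0 < lam j}
  have hα : Fintype.card α = k := by
    simp only [α]
    rw [Fintype.card_sum, Fintype.card_fin, Fintype.card_subtype, hneg]
    omega
  have hβ : Fintype.card β = k := by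
    simp only [β]
    rw [Fintype.card_subtype, hpos]
  let fa : α → ℕ := Sum.elim aa (fun j => (bb j.1).toNat)
  let fb : β → ℕ := fun j => (bb j.1).toNat
  have hbn : ∀ j, lam j ≠ 0 → 1 ≤ (bb j).toNat ∧ (bb j).toNat ≤ n := by
    intro j hj
    have h1 := hbb1 j hj
    have h2 := hbbC j
    constructor
    · omega
    · omega
  have hsum1 : ∑ x, √((fa x : ℕ) : ℝ) =
      (d : ℝ) ^ 2 * (√(((t : ℝ) + 1) ^ 2 - v) + √(((t : ℝ) - 1) ^ 2 - v)) +
      ∑ j ∈ univ.filter (fun j => lam j < 0),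
        2 * (d : ℝ) ^ 2 * (|(lam j : ℝ)| * √((t : ℝ) ^ 2 - v - y j)) := by
    simp only [fa, α]
    rw [Fintype.sum_sum_type]
    simp only [Sum.elim_inl, Sum.elim_inr]
    rw [haR]
    congr 1
    rw [Finset.sum_subtype (univ.filter (fun j => lam j < 0)) (p := fun j => lam j < 0)
      (fun j => by simp)]
    exact Finset.sum_congr rfl fun j _ => hbR j.1 j.2.ne
  have hsum2 : ∑ x, √((fb x : ℕ) : ℝ) =
      ∑ j ∈ univ.filter (fun j => 0 < lam j),
        2 * (d : ℝ) ^ 2 * (|(lam j : ℝ)| * √((t : ℝ) ^ 2 - v - y j)) := by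
    simp only [fb, β]
    rw [Finset.sum_subtype (univ.filter (fun j => 0 < lam j)) (p := fun j => 0 < lam j)
      (fun j => by simp)]
    exact Finset.sum_congr rfl fun j _ => hbR j.1 j.2.ne'
  have hdiff : (∑ x, √((fa x : ℕ) : ℝ)) - ∑ x, √((fb x : ℕ) : ℝ) =
      2 * (d : ℝ) ^ 2 * ((√(((t : ℝ) + 1) ^ 2 - v) + √(((t : ℝ) - 1) ^ 2 - v)) / 2 -
        ∑ j, (lam j : ℝ) * √((t : ℝ) ^ 2 - v - y j)) := by
    rw [hsum1, hsum2]
    have h1 : ∑ j, (lam j : ℝ) * √((t : ℝ) ^ 2 - v - y j) =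
        (∑ j ∈ univ.filter (fun j => 0 < lam j), |(lam j : ℝ)| * √((t : ℝ) ^ 2 - v - y j)) -
        ∑ j ∈ univ.filter (fun j => lam j < 0), |(lam j : ℝ)| * √((t : ℝ) ^ 2 - v - y j) := by
      rw [Finset.sum_filter, Finset.sum_filter, ← Finset.sum_sub_distrib]
      refine Finset.sum_congr rfl fun j _ => ?_
      rcases lt_trichotomy (lam j) 0 with h | h | h
      · have h' : (lam j : ℝ) < 0 := by exact_mod_cast h
        rw [if_neg (by linarith), if_pos h, abs_of_neg h']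
        ring
      · rw [h]; simp
      · have h' : (0 : ℝ) < lam j := by exact_mod_cast h
        rw [if_pos h, if_neg (by linarith), abs_of_pos h']
        ring
    rw [h1, ← Finset.mul_sum, ← Finset.mul_sum]
    ring
  have key := p1_mem n k hα hβ fa fb (by
      rintro (x | x)
      · exact haa x
      · exact hbn x.1 x.2.ne) (fun x => hbn x.1 x.2.ne') (by
      intro h0
      have h1 := hdiff
      rw [h0, sub_self] at h1
      have h2 : (2 * (d : ℝ) ^ 2) ≠ 0 := by positivity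
      exact hF ((mul_eq_zero.mp h1.symm).resolve_left h2))
  rw [hdiff, abs_mul, abs_of_pos (show (0 : ℝ) < 2 * (d : ℝ) ^ 2 by positivity)] at key
  push_cast
  exact key

private lemma p1_r_le {n k : ℕ} {x : ℝ} (h : x ∈ gaps n k) : r n k ≤ x := by
  apply csInf_le _ h
  refine ⟨0, ?_⟩
  rintro z ⟨a, b, _, _, _, rfl⟩
  exact abs_nonneg _

private lemma p1_r_le_one (n k : ℕ) (hn : 2 ≤ n) (hk : 2 ≤ k) : r n k ≤ 1 := by
  have h1 : S (k := k) (fun _ => 1) = k := by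
    simp [S]
  obtain ⟨k, rfl⟩ : ∃ k', k = k' + 1 := ⟨k - 1, by omega⟩
  have h2 : S (k := k + 1) (Fin.cons 2 (fun _ => 1)) = √2 + k := by
    rw [S, Fin.sum_univ_succ]
    simp
  have h3 : (1 : ℝ) < √2 := by
    rw [show (1 : ℝ) = √1 from Real.sqrt_one.symm]
    exact Real.sqrt_lt_sqrt (by norm_num) (by norm_num)
  have h4 : √2 ≤ 2 := by
    rw [show (2 : ℝ) = √(2 ^ 2) from (Real.sqrt_sq (by norm_num)).symm]
    apply Real.sqrt_le_sqrt
    norm_num
  have h5 : |S (k := k + 1) (fun _ => 1) - S (k := k + 1) (Fin.cons 2 (fun _ => 1))| = √2 - 1 := by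
    rw [h1, h2]
    push_cast
    rw [show (k : ℝ) + 1 - (√2 + k) = -(√2 - 1) by ring, abs_neg, abs_of_pos (by linarith)]
  refine (p1_r_le (x := √2 - 1) ⟨fun _ => 1, Fin.cons 2 (fun _ => 1),
    fun i => ⟨le_refl _, by show 1 ≤ n; omega⟩,
    fun i => ?_, ?_, h5.symm⟩).trans (by linarith)
  · refine Fin.cases ?_ (fun j => ?_) i
    · simp only [Fin.cons_zero]; omega
    · simp only [Fin.cons_succ]; omega
  · rw [h1, h2]
    push_cast
    intro h
    linarith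

/-- A quadrature formula with rational nodes `y j` (in the variable `x - v`) and rational weights
gives small gaps: with `T = t ^ 2 - v`, `ζ = 1 / T`,
`(√((t+1)²-v) + √((t-1)²-v)) / 2 - ∑ lam j √(t² - v - y j)
  = √T ((√(1 + ζ + 2 √(ζ + v ζ²)) + √(1 + ζ - 2 √(ζ + v ζ²))) / 2 - ∑ lam j √(1 - y j ζ))
  = √T (c ζ^(2k) + O(ζ^(2k+1)))` with `c ≠ 0`. -/
theorem part1 (k : ℕ) (hk : 2 ≤ k) (v : ℕ) {ι : Type} [Fintype ι] (y lam : ι → ℚ)
    (hpos : (Finset.univ.filter fun j => 0 < lam j).card = k)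
    (hneg : (Finset.univ.filter fun j => lam j < 0).card = k - 2)
    (hex : ∀ m < 2 * k, qq v m = (-1) ^ m * beta m * ∑ j, lam j * y j ^ m)
    (hne : qq v (2 * k) ≠ (-1) ^ (2 * k) * beta (2 * k) * ∑ j, lam j * y j ^ (2 * k)) :
    ∃ C : ℝ, ∀ n : ℕ, 2 ≤ n → r n k ≤ C * (n : ℝ) ^ ((1 : ℝ) / 2 - 2 * (k : ℝ)) := by
  obtain ⟨C, hC, hF⟩ := p1_F k v y lam hex hne
  obtain ⟨D, C0, hC0, hG⟩ := p1_gap k hk v y lam hpos hneg
  obtain ⟨t0, ht0⟩ := eventually_atTop.mp (hF.and hG)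
  set t1 := max t0 1 with ht1
  set e : ℝ := (1 : ℝ) / 2 - 2 * (k : ℝ) with he
  have hk' : (2 : ℝ) ≤ k := by exact_mod_cast hk
  have he0 : e ≤ 0 := by rw [he]; linarith
  set N0 : ℝ := ((C0 * t1 ^ 2 : ℕ) : ℝ) with hN0
  have hC0' : (1 : ℝ) ≤ C0 := by exact_mod_cast hC0
  refine ⟨2 * D * C * (4 * (C0 : ℝ)) ^ (-e) + N0 ^ (-e), fun n hn => ?_⟩
  have hn' : (0 : ℝ) < n := by
    have : 0 < n := by omega
    exact_mod_cast this
  have hne0 : 0 ≤ (n : ℝ) ^ e := Real.rpow_nonneg hn'.le _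
  have hN0e : 0 ≤ N0 ^ (-e) := Real.rpow_nonneg (Nat.cast_nonneg _) _
  have hA : 0 ≤ 2 * (D : ℝ) * C * (4 * (C0 : ℝ)) ^ (-e) :=
    mul_nonneg (by positivity) (Real.rpow_nonneg (by positivity) _)
  set t := Nat.sqrt (n / C0) with ht
  have hlt : n < C0 * (t + 1) ^ 2 := by
    have h1 : n / C0 < (t + 1) * (t + 1) := Nat.sqrt_lt.mp (by rw [← ht]; exact Nat.lt_succ_self t)
    have h2 := (Nat.div_lt_iff_lt_mul hC0).mp h1
    calc n < (t + 1) * (t + 1) * C0 := h2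
      _ = C0 * (t + 1) ^ 2 := by ring
  by_cases htt : t1 ≤ t
  · have htt0 : t0 ≤ t := le_trans (le_max_left _ _) htt
    have htt1 : 1 ≤ t := le_trans (le_max_right _ _) htt
    obtain ⟨⟨hFne, hFle⟩, hgap⟩ := ht0 t htt0
    have hle : C0 * t ^ 2 ≤ n := by
      have h1 : t * t ≤ n / C0 := Nat.sqrt_le (n / C0)
      calc C0 * t ^ 2 = t * t * C0 := by ring
        _ ≤ n / C0 * C0 := Nat.mul_le_mul_right _ h1
        _ ≤ n := Nat.div_mul_le_self n C0
    have h3 := p1_r_le (hgap n hle hFne)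
    have ht' : (1 : ℝ) ≤ t := by exact_mod_cast htt1
    have h4 : (t : ℝ) / ((t : ℝ) ^ 2) ^ (2 * k) = ((t : ℝ) ^ 2) ^ e := by
      rw [he, Real.rpow_sub (by positivity), ← Real.sqrt_eq_rpow, Real.sqrt_sq (by linarith)]
      congr 1
      rw [← Real.rpow_natCast]
      push_cast
      rfl
    have h5 : (n : ℝ) / (4 * C0) ≤ (t : ℝ) ^ 2 := by
      rw [div_le_iff₀ (by positivity)]
      have h6 : (n : ℝ) ≤ C0 * ((t : ℝ) + 1) ^ 2 := by exact_mod_cast hlt.le
      have h7 : ((t : ℝ) + 1) ^ 2 ≤ 4 * (t : ℝ) ^ 2 := by nlinarith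
      nlinarith
    have h8 : ((t : ℝ) ^ 2) ^ e ≤ ((n : ℝ) / (4 * C0)) ^ e :=
      Real.rpow_le_rpow_of_nonpos (by positivity) h5 he0
    have h9 : ((n : ℝ) / (4 * C0)) ^ e = (n : ℝ) ^ e * (4 * (C0 : ℝ)) ^ (-e) := by
      rw [Real.div_rpow hn'.le (by positivity), Real.rpow_neg (by positivity), div_eq_mul_inv]
    calc r n k ≤ 2 * (D : ℝ) * (C * t / ((t : ℝ) ^ 2) ^ (2 * k)) :=
          h3.trans (mul_le_mul_of_nonneg_left hFle (by positivity))
      _ = 2 * (D : ℝ) * C * (((t : ℝ) ^ 2) ^ e) := by rw [← h4]; ring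
      _ ≤ 2 * (D : ℝ) * C * ((n : ℝ) ^ e * (4 * (C0 : ℝ)) ^ (-e)) := by
          rw [← h9]
          exact mul_le_mul_of_nonneg_left h8 (by positivity)
      _ = (2 * D * C * (4 * (C0 : ℝ)) ^ (-e)) * (n : ℝ) ^ e := by ring
      _ ≤ _ := by
          apply mul_le_mul_of_nonneg_right _ hne0
          linarith
  · have hnN : (n : ℝ) ≤ N0 := by
      have h1 : t + 1 ≤ t1 := by omega
      have h2 : n ≤ C0 * t1 ^ 2 :=
        hlt.le.trans (Nat.mul_le_mul_left _ (Nat.pow_le_pow_left h1 2))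
      rw [hN0]
      exact_mod_cast h2
    have h3 : (1 : ℝ) ≤ N0 ^ (-e) * (n : ℝ) ^ e := by
      have h4 : (n : ℝ) ^ (-e) ≤ N0 ^ (-e) := Real.rpow_le_rpow hn'.le hnN (by linarith)
      calc (1 : ℝ) = (n : ℝ) ^ (-e) * (n : ℝ) ^ e := by
            rw [← Real.rpow_add hn']
            simp
        _ ≤ N0 ^ (-e) * (n : ℝ) ^ e := mul_le_mul_of_nonneg_right h4 hne0
    calc r n k ≤ 1 := p1_r_le_one n k hn hk
      _ ≤ N0 ^ (-e) * (n : ℝ) ^ e := h3
      _ ≤ _ := by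
          apply mul_le_mul_of_nonneg_right _ hne0
          linarith

end SqGap
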