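import Pool.Agent.Lib.MP_ac385c_lc.SqSign

/-!
# Sums of square roots: the quadrature formulas (MP_ac385c_lc)
-/

open Filter Topology Polynomial

namespace SqGap

theorem sum_two_mul (f : ℕ → ℚ) (t : ℕ) : ∑ i ∈ Finset.range (2 * t), f i =
    ∑ i ∈ Finset.range t, (f (2 * i) + f (2 * i + 1)) := by
  induction t with
  | zero => rfl
  | succ t ih =>
    have h : 2 * (t + 1) = 2 * t + 1 + 1 := by ring
    rw [h, Finset.sum_range_succ, Finset.sum_range_succ, ih, Finset.sum_range_succ]
    ring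

/-- Everything that is needed about one member of the family. -/
structure Good (a r : ℕ) : Prop where
  pos : 0 < a
  eta : ∀ i < r, (chain a i).eta ≠ 0
  lt : ∀ i l, i < l → l < r → 0 < 1 - (chain a i).eta * ((chain a l).eta)⁻¹
  gt : ∀ i l, l < i → i < r → 1 - (chain a i).eta * ((chain a l).eta)⁻¹ < 0
  e1 : ∀ i < r, 0 < 1 - (chain a i).eta * (chain a r).x1
  e2 : ∀ i < r, 0 < 1 - (chain a i).eta * (chain a r).x2
  ex : (chain a r).Ex
  h : (chain a r).h ≠ 0
  w1 : 0 < (chain a r).w1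
  w2 : 0 < (chain a r).w2
  test : ∀ l < r, ∑ m ∈ Finset.range (r + 4), (tp (chain a r).x1 (chain a r).x2
    (fun i => (chain a i).eta) ((Finset.range r).erase l)).coeff m * (chain a 0).M m < 0

theorem exists_good (r : ℕ) : ∃ a, Good a r := by
  obtain ⟨e, he, hl⟩ := chain_lim
  have hpow : ∀ i l : ℕ, i < l → (2 : ℚ) ^ i / 2 ^ l < 1 := by
    intro i l h
    rw [div_lt_one (by positivity)]
    exact pow_lt_pow_right₀ (by norm_num) h
  have hpow2 : ∀ i l : ℕ, l < i → 1 < (2 : ℚ) ^ i / 2 ^ l := by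
    intro i l h
    rw [one_lt_div (by positivity)]
    exact pow_lt_pow_right₀ (by norm_num) h
  have a1 : ∀ᶠ a in atTop, ∀ i ∈ Finset.range r, (chain a i).eta ≠ 0 :=
    (eventually_all_finset _).2 fun i _ => chain_eta_ne hl i
  have a2 : ∀ᶠ a in atTop, ∀ l ∈ Finset.range r, ∀ i ∈ Finset.range r, i < l →
      0 < 1 - (chain a i).eta * ((chain a l).eta)⁻¹ := by
    refine (eventually_all_finset _).2 fun l _ => (eventually_all_finset _).2 fun i _ => ?_
    by_cases h : i < l
    · filter_upwards [(chain_ratio hl i l).eventually_const_lt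
        (sub_pos.2 (hpow i l h))] with a ha _
      exact ha
    · exact Eventually.of_forall fun a h2 => absurd h2 h
  have a3 : ∀ᶠ a in atTop, ∀ l ∈ Finset.range r, ∀ i ∈ Finset.range r, l < i →
      1 - (chain a i).eta * ((chain a l).eta)⁻¹ < 0 := by
    refine (eventually_all_finset _).2 fun l _ => (eventually_all_finset _).2 fun i _ => ?_
    by_cases h : l < i
    · filter_upwards [(chain_ratio hl i l).eventually_lt_const
        (sub_neg.2 (hpow2 i l h))] with a ha _
      exact ha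
    · exact Eventually.of_forall fun a h2 => absurd h2 h
  have a4 : ∀ᶠ a in atTop, ∀ i ∈ Finset.range r, 0 < 1 - (chain a i).eta * (chain a r).x1 := by
    refine (eventually_all_finset _).2 fun i _ => ?_
    have h := (((hl i).eta0).mul (hl r).x1).const_sub 1
    rw [zero_mul, sub_zero] at h
    exact h.eventually_const_lt one_pos
  have a5 : ∀ᶠ a in atTop, ∀ i ∈ Finset.range r, 0 < 1 - (chain a i).eta * (chain a r).x2 := by
    refine (eventually_all_finset _).2 fun i _ => ?_
    have h := (((hl i).eta0).mul (hl r).x2).const_sub 1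
    rw [zero_mul, sub_zero] at h
    exact h.eventually_const_lt one_pos
  have a6 : ∀ᶠ a in atTop, (chain a r).h ≠ 0 := by
    filter_upwards [(hl r).hh.eventually_ne (show e 4 ≠ 0 by rw [he]; norm_num)] with a h1 h2
    exact h1 (by rw [h2, mul_zero])
  have a7 : ∀ᶠ a in atTop, ∀ l ∈ Finset.range r, ∑ m ∈ Finset.range (r + 4),
      (tp (chain a r).x1 (chain a r).x2 (fun i => (chain a i).eta)
        ((Finset.range r).erase l)).coeff m * (chain a 0).M m < 0 := by
    refine (eventually_all_finset _).2 fun l hl2 => ?_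
    have hlr := Finset.mem_range.1 hl2
    have hcard : ((Finset.range r).erase l).card < r := by
      rw [Finset.card_erase_of_mem hl2, Finset.card_range]
      omega
    have h := test_lim hl r ((Finset.range r).erase l) (by omega) hcard
    filter_upwards [h.eventually_lt_const (show e 4 < 0 by rw [he]; norm_num),
      eventually_gt_atTop 0] with a h1 h2
    have ha : (0 : ℚ) < (a : ℚ) ^ 2 := by positivity
    by_contra hcon
    push Not at hcon
    exact absurd (mul_nonneg ha.le hcon) (not_le.2 h1)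
  obtain ⟨a, b1, b2, b3, b4, b5, b6, b7, b8, b9, b10, b11⟩ :=
    ((eventually_gt_atTop 0).and (a1.and (a2.and (a3.and (a4.and (a5.and ((hl r).ex.and
      (a6.and (((hl r).w1.eventually_const_lt (show (0 : ℚ) < 1 / 2 by norm_num)).and
        (((hl r).w2.eventually_const_lt (show (0 : ℚ) < 1 / 2 by norm_num)).and
          a7)))))))))).exists
  exact ⟨a,
    { pos := b1
      eta := fun i hi => b2 i (Finset.mem_range.2 hi)
      lt := fun i l h1 h2 => b3 l (Finset.mem_range.2 h2) i (Finset.mem_range.2 (by omega)) h1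
      gt := fun i l h1 h2 => b4 l (Finset.mem_range.2 (by omega)) i (Finset.mem_range.2 h2) h1
      e1 := fun i hi => b5 i (Finset.mem_range.2 hi)
      e2 := fun i hi => b6 i (Finset.mem_range.2 hi)
      ex := b7
      h := b8
      w1 := b9
      w2 := b10
      test := fun l hl => b11 l (Finset.mem_range.2 hl) }⟩

/-- The quadrature formula with the signs of the weights. -/
theorem exists_quad (r : ℕ) : ∃ (a : ℕ) (X lam : ℕ → ℚ) (x1 x2 μ1 μ2 : ℚ), 0 < a ∧ 0 < μ1 ∧
    0 < μ2 ∧ (∀ l < r, (-1) ^ (r - 1 - l) * lam l < 0) ∧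
    (∀ m < r + 4, Mom ((a : ℚ)⁻¹) m =
      ∑ i ∈ Finset.range r, lam i * X i ^ m + (μ1 * x1 ^ m + μ2 * x2 ^ m)) ∧
    Mom ((a : ℚ)⁻¹) (r + 4) ≠
      ∑ i ∈ Finset.range r, lam i * X i ^ (r + 4) + (μ1 * x1 ^ (r + 4) + μ2 * x2 ^ (r + 4)) := by
  obtain ⟨a, g⟩ := exists_good r
  have hne : ∀ i l, i < l → l < r → (chain a i).eta ≠ (chain a l).eta := by
    intro i l h1 h2 h3
    have h4 := g.lt i l h1 h2
    rw [h3, mul_inv_cancel₀ (g.eta l h2), sub_self] at h4
    exact lt_irrefl _ h4
  obtain ⟨lam, μ1, μ2, q1, q2, q3, q4⟩ := quad r (chain a 0) g.eta hne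
    (fun i hi => (g.e1 i hi).ne') (fun i hi => (g.e2 i hi).ne') g.ex
  refine ⟨a, fun i => ((chain a i).eta)⁻¹, lam, (chain a r).x1, (chain a r).x2, μ1, μ2, g.pos,
    ?_, ?_, ?_, q1, q2 g.h⟩
  · have h1 : 0 < ∏ i ∈ Finset.range r, (1 - (chain a 0).et i * (St.next^[r] (chain a 0)).x1) :=
      Finset.prod_pos fun i hi => g.e1 i (Finset.mem_range.1 hi)
    have h2 : 0 < μ1 * ∏ i ∈ Finset.range r,
        (1 - (chain a 0).et i * (St.next^[r] (chain a 0)).x1) := by
      rw [q3]
      exact g.w1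
    exact pos_of_mul_pos_left h2 h1.le
  · have h1 : 0 < ∏ i ∈ Finset.range r, (1 - (chain a 0).et i * (St.next^[r] (chain a 0)).x2) :=
      Finset.prod_pos fun i hi => g.e2 i (Finset.mem_range.1 hi)
    have h2 : 0 < μ2 * ∏ i ∈ Finset.range r,
        (1 - (chain a 0).et i * (St.next^[r] (chain a 0)).x2) := by
      rw [q4]
      exact g.w2
    exact pos_of_mul_pos_left h2 h1.le
  · intro l hl
    set p := tp (chain a r).x1 (chain a r).x2 (fun i => (chain a i).eta)
      ((Finset.range r).erase l) with hp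
    have hcard : ((Finset.range r).erase l).card < r := by
      rw [Finset.card_erase_of_mem (Finset.mem_range.2 hl), Finset.card_range]
      omega
    have hdeg : p.natDegree < r + 4 := lt_of_le_of_lt (tp_natDegree _ _ _ _) (by omega)
    have k1 := apply_quad (chain a 0) r lam (chain a r).x1 (chain a r).x2 μ1 μ2 p hdeg q1
    have k2 : p.eval (chain a r).x1 = 0 := by
      rw [hp, tp_eval, sub_self, zero_mul, zero_pow two_ne_zero, zero_mul]
    have k3 : p.eval (chain a r).x2 = 0 := by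
      rw [hp, tp_eval, sub_self, mul_zero, zero_pow two_ne_zero, zero_mul]
    have k4 : ∑ i ∈ Finset.range r, lam i * p.eval (((chain a 0).et i)⁻¹) =
        lam l * p.eval (((chain a l).eta)⁻¹) := by
      rw [Finset.sum_eq_single l]
      · rfl
      · intro i hi hil
        have h1 : p.eval (((chain a 0).et i)⁻¹) = 0 := by
          rw [hp, tp_eval]
          have h2 : ∏ j ∈ (Finset.range r).erase l,
              (1 - (chain a j).eta * ((chain a 0).et i)⁻¹) = 0 := by
            refine Finset.prod_eq_zero (Finset.mem_erase.2 ⟨hil, hi⟩) ?_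
            show 1 - (chain a i).eta * ((chain a i).eta)⁻¹ = 0
            rw [mul_inv_cancel₀ (g.eta i (Finset.mem_range.1 hi)), sub_self]
          rw [h2, mul_zero]
        rw [h1, mul_zero]
      · intro h
        exact absurd (Finset.mem_range.2 hl) h
    rw [k2, k3, k4] at k1
    have k5 : lam l * p.eval (((chain a l).eta)⁻¹) < 0 := by
      have := g.test l hl
      rw [← hp, k1] at this
      linarith
    rw [hp, tp_eval] at k5
    have k6 : 0 < ((((chain a l).eta)⁻¹ - (chain a r).x1) *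
        (((chain a l).eta)⁻¹ - (chain a r).x2)) ^ 2 := by
      have hη := g.eta l hl
      have h1 : ((chain a l).eta)⁻¹ - (chain a r).x1 ≠ 0 := by
        intro h
        have h2 := g.e1 l hl
        rw [← sub_eq_zero.1 h, mul_inv_cancel₀ hη, sub_self] at h2
        exact lt_irrefl _ h2
      have h3 : ((chain a l).eta)⁻¹ - (chain a r).x2 ≠ 0 := by
        intro h
        have h2 := g.e2 l hl
        rw [← sub_eq_zero.1 h, mul_inv_cancel₀ hη, sub_self] at h2
        exact lt_irrefl _ h2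
      positivity
    have k7 := sign_prod r l hl (fun i => 1 - (chain a i).eta * ((chain a l).eta)⁻¹)
      (fun i hi => g.lt i l hi hl) (fun i h1 h2 => g.gt i l h1 h2)
    have k8 : ((-1 : ℚ) ^ (r - 1 - l)) * (-1) ^ (r - 1 - l) = 1 := by
      rw [← mul_pow]; norm_num
    have k9 : ((-1) ^ (r - 1 - l) * lam l) * (((((chain a l).eta)⁻¹ - (chain a r).x1) *
        (((chain a l).eta)⁻¹ - (chain a r).x2)) ^ 2 * ((-1) ^ (r - 1 - l) *
          ∏ i ∈ (Finset.range r).erase l, (1 - (chain a i).eta * ((chain a l).eta)⁻¹))) < 0 := by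
      calc _ = (((-1 : ℚ) ^ (r - 1 - l)) * (-1) ^ (r - 1 - l)) * (lam l *
            (((((chain a l).eta)⁻¹ - (chain a r).x1) *
              (((chain a l).eta)⁻¹ - (chain a r).x2)) ^ 2 *
                ∏ i ∈ (Finset.range r).erase l,
                  (1 - (chain a i).eta * ((chain a l).eta)⁻¹))) := by ring
        _ < 0 := by rw [k8, one_mul]; exact k5
    exact neg_of_mul_neg_left k9 (mul_pos k6 k7).le

/-- Quadrature formulas with `t + 2` positive and `t` negative weights. -/
theorem part2 (t : ℕ) : ∃ (v : ℕ) (y lam : Fin (t + 2) ⊕ Fin t → ℚ),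
    (∀ i, 0 < lam (Sum.inl i)) ∧ (∀ i, lam (Sum.inr i) < 0) ∧
    (∀ m < 2 * (t + 2), qq v m = (-1) ^ m * beta m * ∑ j, lam j * y j ^ m) ∧
    qq v (2 * (t + 2)) ≠
      (-1) ^ (2 * (t + 2)) * beta (2 * (t + 2)) * ∑ j, lam j * y j ^ (2 * (t + 2)) := by
  obtain ⟨a, X, lam, x1, x2, μ1, μ2, ha, h1, h2, hs, q1, q2⟩ := exists_quad (2 * t)
  have ha0 : (a : ℚ) ≠ 0 := by exact_mod_cast ha.ne'
  have hev : ∀ i < t, 0 < lam (2 * i) := by
    intro i hi
    have h3 := hs (2 * i) (by omega)
    obtain ⟨j, hj⟩ : ∃ j, 2 * t - 1 - 2 * i = 2 * j + 1 := ⟨t - 1 - i, by omega⟩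
    rw [hj, pow_succ, pow_mul] at h3
    norm_num at h3
    exact h3
  have hod : ∀ i < t, lam (2 * i + 1) < 0 := by
    intro i hi
    have h3 := hs (2 * i + 1) (by omega)
    obtain ⟨j, hj⟩ : ∃ j, 2 * t - 1 - (2 * i + 1) = 2 * j := ⟨t - 1 - i, by omega⟩
    rw [hj, pow_mul] at h3
    norm_num at h3
    exact h3
  set yp : ℕ → ℚ := fun n => Nat.casesOn n (a * x1) fun n => Nat.casesOn n (a * x2)
    fun n => a * X (2 * n) with hyp
  set lp : ℕ → ℚ := fun n => Nat.casesOn n μ1 fun n => Nat.casesOn n μ2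
    fun n => lam (2 * n) with hlp
  set y : Fin (t + 2) ⊕ Fin t → ℚ := Sum.elim (fun i => yp i)
    (fun i => a * X (2 * (i : ℕ) + 1)) with hy
  set lm : Fin (t + 2) ⊕ Fin t → ℚ := Sum.elim (fun i => lp i)
    (fun i => lam (2 * (i : ℕ) + 1)) with hlm
  have hsum : ∀ m, ∑ j, lm j * y j ^ m = (a : ℚ) ^ m *
      (∑ i ∈ Finset.range (2 * t), lam i * X i ^ m + (μ1 * x1 ^ m + μ2 * x2 ^ m)) := by
    intro m
    rw [Fintype.sum_sum_type]
    have e1 : ∑ i : Fin (t + 2), lm (Sum.inl i) * y (Sum.inl i) ^ m =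
        ∑ i ∈ Finset.range (t + 2), lp i * yp i ^ m :=
      Fin.sum_univ_eq_sum_range (fun i => lp i * yp i ^ m) (t + 2)
    have e2 : ∑ i : Fin t, lm (Sum.inr i) * y (Sum.inr i) ^ m =
        ∑ i ∈ Finset.range t, lam (2 * i + 1) * (a * X (2 * i + 1)) ^ m :=
      Fin.sum_univ_eq_sum_range (fun i => lam (2 * i + 1) * (a * X (2 * i + 1)) ^ m) t
    have e3 : ∑ i ∈ Finset.range (t + 2), lp i * yp i ^ m =
        ∑ i ∈ Finset.range t, lam (2 * i) * (a * X (2 * i)) ^ m + μ2 * (a * x2) ^ m +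
          μ1 * (a * x1) ^ m := by
      rw [Finset.sum_range_succ', Finset.sum_range_succ']
      rfl
    rw [e1, e2, e3, sum_two_mul, Finset.sum_add_distrib, mul_add, mul_add, Finset.mul_sum,
      Finset.mul_sum]
    have e4 : ∀ i ∈ Finset.range t, lam (2 * i) * (a * X (2 * i)) ^ m =
        (a : ℚ) ^ m * (lam (2 * i) * X (2 * i) ^ m) := fun i _ => by rw [mul_pow]; ring
    have e5 : ∀ i ∈ Finset.range t, lam (2 * i + 1) * (a * X (2 * i + 1)) ^ m =
        (a : ℚ) ^ m * (lam (2 * i + 1) * X (2 * i + 1) ^ m) := fun i _ => by rw [mul_pow]; ring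
    rw [Finset.sum_congr rfl e4, Finset.sum_congr rfl e5, mul_pow, mul_pow]
    ring
  have hr : 2 * (t + 2) = 2 * t + 4 := by ring
  refine ⟨a * (a + 1), y, lm, ?_, ?_, ?_, ?_⟩
  · rintro ⟨i, hi⟩
    show 0 < lp i
    rcases i with _ | _ | i
    · exact h1
    · exact h2
    · exact hev i (by omega)
  · rintro ⟨i, hi⟩
    exact hod i hi
  · intro m hm
    rw [hsum, qq_eq a ha, q1 m (by omega)]
  · rw [hsum, qq_eq a ha, hr]
    intro h
    apply q2
    have h3 : ((-1 : ℚ) ^ (2 * t + 4) * beta (2 * t + 4)) ≠ 0 :=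
      mul_ne_zero (pow_ne_zero _ (by norm_num)) (beta_ne _)
    exact mul_left_cancel₀ (pow_ne_zero _ ha0) (mul_left_cancel₀ h3 h)

end SqGap
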