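import Pool.Agent.Lib.MP_ac385c_lc.SqInit

/-!
# Sums of square roots: the quadrature formula (MP_ac385c_lc)
-/

open Filter Topology

namespace SqGap

theorem lift (M F : ℕ → ℚ) {η : ℚ} (hη : η ≠ 0) (n : ℕ) (h0 : M 0 = F 0)
    (h : ∀ m < n, M m - η * M (m + 1) = F m - η * F (m + 1)) : ∀ m < n + 1, M m = F m := by
  intro m
  induction m with
  | zero => exact fun _ => h0
  | succ m ih =>
    intro hm
    have h1 := ih (by omega)
    have h2 := h m (by omega)
    rw [h1] at h2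
    exact mul_left_cancel₀ hη (by linarith)

/-- the inverses of the far nodes -/
def St.et (s : St) (i : ℕ) : ℚ := (St.next^[i] s).eta

theorem St.et_next (s : St) (i : ℕ) : s.next.et i = s.et (i + 1) := rfl

/-- The value of a quadrature formula with `j` far nodes and two near nodes on `x ^ m`. -/
def qv (s : St) (j : ℕ) (lam : ℕ → ℚ) (y1 y2 μ1 μ2 : ℚ) (m : ℕ) : ℚ :=
  ∑ i ∈ Finset.range j, lam i * ((s.et i)⁻¹) ^ m + (μ1 * y1 ^ m + μ2 * y2 ^ m)

theorem quad (j : ℕ) : ∀ s : St, (∀ i < j, s.et i ≠ 0) →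
    (∀ i l, i < l → l < j → s.et i ≠ s.et l) →
    (∀ i < j, 1 - s.et i * (St.next^[j] s).x1 ≠ 0) →
    (∀ i < j, 1 - s.et i * (St.next^[j] s).x2 ≠ 0) → (St.next^[j] s).Ex →
    ∃ (lam : ℕ → ℚ) (μ1 μ2 : ℚ),
      (∀ m < j + 4, s.M m = qv s j lam (St.next^[j] s).x1 (St.next^[j] s).x2 μ1 μ2 m) ∧
      ((St.next^[j] s).h ≠ 0 →
        s.M (j + 4) ≠ qv s j lam (St.next^[j] s).x1 (St.next^[j] s).x2 μ1 μ2 (j + 4)) ∧
      μ1 * ∏ i ∈ Finset.range j, (1 - s.et i * (St.next^[j] s).x1) = (St.next^[j] s).w1 ∧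
      μ2 * ∏ i ∈ Finset.range j, (1 - s.et i * (St.next^[j] s).x2) = (St.next^[j] s).w2 := by
  induction j with
  | zero =>
    intro s _ _ _ _ hex
    refine ⟨fun _ => 0, s.w1, s.w2, ?_, ?_, ?_, ?_⟩
    · intro m hm
      unfold qv
      rw [Finset.sum_range_zero, zero_add]
      exact hex m (by omega)
    · intro hh heq
      apply hh
      have heq2 : s.M 4 = ∑ i ∈ Finset.range 0, (0 : ℚ) * ((s.et i)⁻¹) ^ 4 +
        (s.w1 * s.x1 ^ 4 + s.w2 * s.x2 ^ 4) := heq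
      rw [Finset.sum_range_zero, zero_add] at heq2
      show s.M 4 - (s.w1 * s.x1 ^ 4 + s.w2 * s.x2 ^ 4) = 0
      exact sub_eq_zero.2 heq2
    · rw [Finset.prod_range_zero, mul_one]
      rfl
    · rw [Finset.prod_range_zero, mul_one]
      rfl
  | succ j ih =>
    intro s h1 h2 h3 h4 hex
    obtain ⟨lam, μ1, μ2, q1, q2, q3, q4⟩ := ih s.next (fun i hi => h1 (i + 1) (by omega))
      (fun i l hi hl => h2 (i + 1) (l + 1) (by omega) (by omega))
      (fun i hi => h3 (i + 1) (by omega)) (fun i hi => h4 (i + 1) (by omega)) hex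
    have hit : St.next^[j] s.next = St.next^[j + 1] s := rfl
    rw [hit] at q1 q2 q3 q4
    set y1 := (St.next^[j + 1] s).x1 with hy1
    set y2 := (St.next^[j + 1] s).x2 with hy2
    have e0 : s.et 0 ≠ 0 := h1 0 (by omega)
    have z1 : 1 - s.et 0 * y1 ≠ 0 := h3 0 (by omega)
    have z2 : 1 - s.et 0 * y2 ≠ 0 := h4 0 (by omega)
    set lam2 : ℕ → ℚ := fun i => lam i / (1 - s.et 0 * (s.et (i + 1))⁻¹) with hlam2
    set l0 : ℚ := s.M 0 - (∑ i ∈ Finset.range j, lam2 i +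
      (μ1 / (1 - s.et 0 * y1) + μ2 / (1 - s.et 0 * y2))) with hl0
    set lam3 : ℕ → ℚ := fun i => Nat.casesOn i l0 lam2 with hlam3
    set F : ℕ → ℚ := qv s (j + 1) lam3 y1 y2 (μ1 / (1 - s.et 0 * y1)) (μ2 / (1 - s.et 0 * y2))
      with hF
    have hFm : ∀ m, F m = (∑ i ∈ Finset.range j, lam2 i * ((s.et (i + 1))⁻¹) ^ m +
        l0 * ((s.et 0)⁻¹) ^ m) + (μ1 / (1 - s.et 0 * y1) * y1 ^ m +
          μ2 / (1 - s.et 0 * y2) * y2 ^ m) := by
      intro m
      rw [hF]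
      unfold qv
      rw [Finset.sum_range_succ']
      rfl
    have hF0 : s.M 0 = F 0 := by
      rw [hFm]
      simp only [pow_zero, mul_one]
      rw [hl0]
      ring
    have hterm : ∀ i ∈ Finset.range j, ∀ m, lam2 i * ((s.et (i + 1))⁻¹) ^ m -
        s.et 0 * (lam2 i * ((s.et (i + 1))⁻¹) ^ (m + 1)) = lam i * ((s.et (i + 1))⁻¹) ^ m := by
      intro i hi m
      have hi2 := Finset.mem_range.1 hi
      have n1 : s.et (i + 1) ≠ 0 := h1 (i + 1) (by omega)
      have n2 : s.et 0 ≠ s.et (i + 1) := h2 0 (i + 1) (by omega) (by omega)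
      have n3 : 1 - s.et 0 * (s.et (i + 1))⁻¹ ≠ 0 := by
        intro h
        apply n2
        have h5 : s.et 0 * (s.et (i + 1))⁻¹ = 1 := by linarith
        rw [← div_eq_mul_inv, div_eq_one_iff_eq n1] at h5
        exact h5
      have h5 : lam2 i * (1 - s.et 0 * (s.et (i + 1))⁻¹) = lam i := by
        rw [hlam2]
        exact div_mul_cancel₀ _ n3
      rw [← h5]
      ring
    have hdiff : ∀ m, F m - s.et 0 * F (m + 1) = qv s.next j lam y1 y2 μ1 μ2 m := by
      intro m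
      rw [hFm, hFm]
      unfold qv
      have h5 : ∑ i ∈ Finset.range j, lam i * ((s.next.et i)⁻¹) ^ m =
          ∑ i ∈ Finset.range j, lam2 i * ((s.et (i + 1))⁻¹) ^ m -
            s.et 0 * ∑ i ∈ Finset.range j, lam2 i * ((s.et (i + 1))⁻¹) ^ (m + 1) := by
        rw [Finset.mul_sum, ← Finset.sum_sub_distrib]
        exact Finset.sum_congr rfl fun i hi => (hterm i hi m).symm
      rw [h5]
      have h6 : l0 * ((s.et 0)⁻¹) ^ m - s.et 0 * (l0 * ((s.et 0)⁻¹) ^ (m + 1)) = 0 := by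
        rw [pow_succ]
        field_simp
        ring
      have h7 : μ1 / (1 - s.et 0 * y1) * y1 ^ m -
          s.et 0 * (μ1 / (1 - s.et 0 * y1) * y1 ^ (m + 1)) = μ1 * y1 ^ m := by
        have h8 : μ1 / (1 - s.et 0 * y1) * (1 - s.et 0 * y1) = μ1 := div_mul_cancel₀ _ z1
        calc _ = (μ1 / (1 - s.et 0 * y1) * (1 - s.et 0 * y1)) * y1 ^ m := by ring
          _ = _ := by rw [h8]
      have h9 : μ2 / (1 - s.et 0 * y2) * y2 ^ m -
          s.et 0 * (μ2 / (1 - s.et 0 * y2) * y2 ^ (m + 1)) = μ2 * y2 ^ m := by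
        have h8 : μ2 / (1 - s.et 0 * y2) * (1 - s.et 0 * y2) = μ2 := div_mul_cancel₀ _ z2
        calc _ = (μ2 / (1 - s.et 0 * y2) * (1 - s.et 0 * y2)) * y2 ^ m := by ring
          _ = _ := by rw [h8]
      linear_combination h6 + h7 + h9
    have hM : ∀ m, s.next.M m = s.M m - s.et 0 * s.M (m + 1) := fun m => rfl
    have hall : ∀ m < j + 4 + 1, s.M m = F m := by
      apply lift s.M F e0 (j + 4) hF0
      intro m hm
      rw [← hM, hdiff]
      exact q1 m hm
    refine ⟨lam3, μ1 / (1 - s.et 0 * y1), μ2 / (1 - s.et 0 * y2), ?_, ?_, ?_, ?_⟩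
    · intro m hm
      exact hall m (by omega)
    · intro hh heq
      apply q2 hh
      rw [hM, ← hdiff, hall (j + 4) (by omega)]
      have e1 : j + 1 + 4 = j + 4 + 1 := by omega
      rw [e1] at heq
      rw [heq]
    · rw [Finset.prod_range_succ', ← q3]
      have h8 : μ1 / (1 - s.et 0 * y1) * (1 - s.et 0 * y1) = μ1 := div_mul_cancel₀ _ z1
      calc _ = (μ1 / (1 - s.et 0 * y1) * (1 - s.et 0 * y1)) *
            ∏ i ∈ Finset.range j, (1 - s.et (i + 1) * y1) := by ring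
        _ = _ := by rw [h8]; rfl
    · rw [Finset.prod_range_succ', ← q4]
      have h8 : μ2 / (1 - s.et 0 * y2) * (1 - s.et 0 * y2) = μ2 := div_mul_cancel₀ _ z2
      calc _ = (μ2 / (1 - s.et 0 * y2) * (1 - s.et 0 * y2)) *
            ∏ i ∈ Finset.range j, (1 - s.et (i + 1) * y2) := by ring
        _ = _ := by rw [h8]; rfl

end SqGap
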