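import Pool.Agent.Lib.MP_ac385c_lc.SqQuad

/-!
# Sums of square roots: the signs of the weights (MP_ac385c_lc)
-/

open Filter Topology Polynomial

namespace SqGap

/-- The test polynomial. -/
noncomputable def tp (y1 y2 : ℚ) (η : ℕ → ℚ) (S : Finset ℕ) : ℚ[X] :=
  ((X - C y1) * (X - C y2)) ^ 2 * ∏ i ∈ S, (1 - C (η i) * X)

theorem tp_eval (y1 y2 : ℚ) (η : ℕ → ℚ) (S : Finset ℕ) (x : ℚ) :
    (tp y1 y2 η S).eval x = ((x - y1) * (x - y2)) ^ 2 * ∏ i ∈ S, (1 - η i * x) := by
  unfold tp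
  rw [eval_mul, eval_pow, eval_mul, eval_sub, eval_sub, eval_X, eval_C, eval_C, eval_prod]
  congr 1
  refine Finset.prod_congr rfl fun i _ => ?_
  rw [eval_sub, eval_one, eval_mul, eval_C, eval_X]

theorem tp_natDegree (y1 y2 : ℚ) (η : ℕ → ℚ) (S : Finset ℕ) :
    (tp y1 y2 η S).natDegree ≤ 4 + S.card := by
  unfold tp
  refine natDegree_mul_le.trans (add_le_add ?_ ?_)
  · refine natDegree_pow_le.trans ?_
    have h1 : ((X - C y1) * (X - C y2) : ℚ[X]).natDegree ≤ 2 := by
      refine natDegree_mul_le.trans ?_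
      rw [natDegree_X_sub_C, natDegree_X_sub_C]
    omega
  · refine (natDegree_prod_le _ _).trans ?_
    refine (Finset.sum_le_card_nsmul S _ 1 fun i _ => ?_).trans (by rw [smul_eq_mul, mul_one])
    refine (natDegree_sub_le _ _).trans ?_
    rw [natDegree_one]
    refine max_le (by omega) ?_
    exact (natDegree_C_mul_le _ _).trans natDegree_X_le

theorem apply_quad (s : St) (j : ℕ) (lam : ℕ → ℚ) (y1 y2 μ1 μ2 : ℚ) (p : ℚ[X])
    (hp : p.natDegree < j + 4) (h : ∀ m < j + 4, s.M m = qv s j lam y1 y2 μ1 μ2 m) :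
    ∑ m ∈ Finset.range (j + 4), p.coeff m * s.M m =
      ∑ i ∈ Finset.range j, lam i * p.eval ((s.et i)⁻¹) + (μ1 * p.eval y1 + μ2 * p.eval y2) := by
  have h1 : ∀ x, p.eval x = ∑ m ∈ Finset.range (j + 4), p.coeff m * x ^ m :=
    fun x => eval_eq_sum_range' hp x
  have h2 : ∑ m ∈ Finset.range (j + 4), p.coeff m * s.M m =
      ∑ m ∈ Finset.range (j + 4), (∑ i ∈ Finset.range j,
        lam i * (p.coeff m * ((s.et i)⁻¹) ^ m) + (μ1 * (p.coeff m * y1 ^ m) +
          μ2 * (p.coeff m * y2 ^ m))) := by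
    refine Finset.sum_congr rfl fun m hm => ?_
    rw [h m (Finset.mem_range.1 hm)]
    unfold qv
    rw [mul_add, Finset.mul_sum]
    congr 1
    · exact Finset.sum_congr rfl fun i _ => by ring
    · ring
  rw [h2, Finset.sum_add_distrib, Finset.sum_add_distrib, Finset.sum_comm, h1 y1, h1 y2,
    Finset.mul_sum, Finset.mul_sum]
  congr 1
  refine Finset.sum_congr rfl fun i _ => ?_
  rw [h1, Finset.mul_sum]

/-- coefficientwise convergence -/
def PC (p : ℕ → ℚ[X]) (q : ℚ[X]) : Prop :=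
  ∀ m, Tendsto (fun a => (p a).coeff m) atTop (𝓝 (q.coeff m))

theorem PC.mul {p p' : ℕ → ℚ[X]} {q q' : ℚ[X]} (h : PC p q) (h' : PC p' q') :
    PC (fun a => p a * p' a) (q * q') := by
  intro m
  simp_rw [coeff_mul]
  exact tendsto_finsetSum _ fun i _ => (h i.1).mul (h' i.2)

theorem PC.prod {S : Finset ℕ} {p : ℕ → ℕ → ℚ[X]} {q : ℕ → ℚ[X]}
    (h : ∀ i ∈ S, PC (fun a => p a i) (q i)) :
    PC (fun a => ∏ i ∈ S, p a i) (∏ i ∈ S, q i) := by
  induction S using Finset.induction_on with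
  | empty =>
    intro m
    simp_rw [Finset.prod_empty]
    exact tendsto_const_nhds
  | insert i S hi ih =>
    have h1 := (h i (Finset.mem_insert_self _ _)).mul
      (ih fun j hj => h j (Finset.mem_insert_of_mem hj))
    intro m
    simp_rw [Finset.prod_insert hi]
    exact h1 m

theorem PC.lin {y : ℕ → ℚ} {L : ℚ} (h : Tendsto y atTop (𝓝 L)) :
    PC (fun a => X - C (y a)) (X - C L) := by
  intro m
  simp_rw [coeff_sub, coeff_C]
  refine tendsto_const_nhds.sub ?_
  split_ifs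
  · exact h
  · exact tendsto_const_nhds

theorem PC.lin2 {y : ℕ → ℚ} {L : ℚ} (h : Tendsto y atTop (𝓝 L)) :
    PC (fun a => 1 - C (y a) * X) (1 - C L * X) := by
  intro m
  simp_rw [coeff_sub, coeff_C_mul]
  exact tendsto_const_nhds.sub (h.mul tendsto_const_nhds)

theorem PC.tp {y1 y2 : ℕ → ℚ} {L1 L2 : ℚ} {η : ℕ → ℕ → ℚ} {S : Finset ℕ}
    (h1 : Tendsto y1 atTop (𝓝 L1)) (h2 : Tendsto y2 atTop (𝓝 L2))
    (h3 : ∀ i ∈ S, Tendsto (fun a => η a i) atTop (𝓝 0)) :
    PC (fun a => tp (y1 a) (y2 a) (η a) S) (tp L1 L2 (fun _ => 0) S) := by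
  have h4 := (PC.lin h1).mul (PC.lin h2)
  have h5 := (h4.mul h4).mul (PC.prod (S := S) (p := fun a i => 1 - C (η a i) * X)
    (q := fun _ => 1 - C 0 * X) fun i hi => PC.lin2 (h3 i hi))
  intro m
  unfold SqGap.tp
  simp_rw [pow_two]
  exact h5 m

theorem tp_lim (S : Finset ℕ) : tp (-2) 2 (fun _ => 0) S = X ^ 4 - C 8 * X ^ 2 + C 16 := by
  unfold tp
  simp only [C_0, zero_mul, sub_zero, Finset.prod_const_one, mul_one]
  have h2 : (C 2 : ℚ[X]) = 2 := map_ofNat C 2
  have h1 : (C (-2) : ℚ[X]) = -2 := by rw [map_neg, h2]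
  have h3 : (C 8 : ℚ[X]) = 8 := map_ofNat C 8
  have h4 : (C 16 : ℚ[X]) = 16 := map_ofNat C 16
  rw [h1, h2, h3, h4]
  ring

section chain

variable {e : ℕ → ℚ} (hl : ∀ i, Lim (fun a => chain a i) (2 ^ i * (1 / 2)) e)

include hl

theorem chain_eta (i : ℕ) :
    Tendsto (fun a : ℕ => (a : ℚ) * (chain a i).eta) atTop (𝓝 (2 ^ i / 4)) := by
  have h := (hl i).eta1
  have e1 : (2 : ℚ) ^ i * (1 / 2) / 2 = 2 ^ i / 4 := by ring
  rw [e1] at h
  exact h

theorem chain_eta_ne (i : ℕ) : ∀ᶠ a in atTop, (chain a i).eta ≠ 0 := by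
  filter_upwards [(chain_eta hl i).eventually_ne
    (div_ne_zero (pow_ne_zero i two_ne_zero) four_ne_zero)] with a h1 h2
  exact h1 (by rw [h2, mul_zero])

theorem chain_ratio (i l : ℕ) :
    Tendsto (fun a : ℕ => 1 - (chain a i).eta * ((chain a l).eta)⁻¹) atTop
      (𝓝 (1 - 2 ^ i / 2 ^ l)) := by
  have h4 : (2 : ℚ) ^ l / 4 ≠ 0 := div_ne_zero (pow_ne_zero l two_ne_zero) four_ne_zero
  have h := ((chain_eta hl i).div (chain_eta hl l) h4).const_sub 1
  have e1 : (1 : ℚ) - 2 ^ i / 4 / (2 ^ l / 4) = 1 - 2 ^ i / 2 ^ l := by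
    field_simp
  rw [e1] at h
  refine h.congr' ?_
  filter_upwards [eventually_gt_atTop 0, chain_eta_ne hl l] with a ha hη
  have ha0 : (a : ℚ) ≠ 0 := by exact_mod_cast ha.ne'
  show 1 - (a : ℚ) * (chain a i).eta / ((a : ℚ) * (chain a l).eta) =
    1 - (chain a i).eta * ((chain a l).eta)⁻¹
  rw [mul_div_mul_left _ _ ha0, div_eq_mul_inv]

theorem chain_x1 (i : ℕ) : Tendsto (fun a : ℕ => (a : ℚ) ^ 2 *
    ((chain a i).x1 - (chain a 0).x1)) atTop (𝓝 0) := by
  induction i with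
  | zero =>
    refine tendsto_const_nhds.congr fun a => ?_
    rw [sub_self, mul_zero]
  | succ i ih =>
    have h := ih.add (hl i).y1x
    rw [add_zero] at h
    refine h.congr fun a => ?_
    rw [chain_succ]
    show _ = (a : ℚ) ^ 2 * ((chain a i).y1 - (chain a 0).x1)
    ring

theorem chain_x2 (i : ℕ) : Tendsto (fun a : ℕ => (a : ℚ) ^ 2 *
    ((chain a i).x2 - (chain a 0).x2)) atTop (𝓝 0) := by
  induction i with
  | zero =>
    refine tendsto_const_nhds.congr fun a => ?_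
    rw [sub_self, mul_zero]
  | succ i ih =>
    have h := ih.add (hl i).y2x
    rw [add_zero] at h
    refine h.congr fun a => ?_
    rw [chain_succ]
    show _ = (a : ℚ) ^ 2 * ((chain a i).y2 - (chain a 0).x2)
    ring

theorem e_small (m : ℕ) (hm : m < 4) : e m = 0 := by
  have h := (hl 0).em m
  refine tendsto_nhds_unique h (tendsto_const_nhds.congr' ?_)
  filter_upwards [(hl 0).ex] with a ha
  rw [ha m hm, sub_self, mul_zero]

theorem test_lim (r : ℕ) (S : Finset ℕ) (hr : 1 ≤ r) (hS : S.card < r) :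
    Tendsto (fun a : ℕ => (a : ℚ) ^ 2 * ∑ m ∈ Finset.range (r + 4),
      (tp (chain a r).x1 (chain a r).x2 (fun i => (chain a i).eta) S).coeff m *
        (chain a 0).M m) atTop (𝓝 (e 4)) := by
  -- the polynomials
  set p : ℕ → ℚ[X] := fun a =>
    tp (chain a r).x1 (chain a r).x2 (fun i => (chain a i).eta) S with hp
  have hpc : PC p (tp (-2) 2 (fun _ => 0) S) :=
    PC.tp (hl r).x1 (hl r).x2 fun i _ => (hl i).eta0
  have hdeg : ∀ a, (p a).natDegree < r + 4 := fun a =>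
    lt_of_le_of_lt (tp_natDegree _ _ _ _) (by omega)
  -- the defect part
  have h1 : Tendsto (fun a : ℕ => ∑ m ∈ Finset.range (r + 4), (p a).coeff m * ((a : ℚ) ^ 2 *
      ((chain a 0).M m - ((chain a 0).w1 * (chain a 0).x1 ^ m +
        (chain a 0).w2 * (chain a 0).x2 ^ m)))) atTop (𝓝 (e 4)) := by
    have h2 : Tendsto (fun a : ℕ => ∑ m ∈ Finset.range (r + 4), (p a).coeff m * ((a : ℚ) ^ 2 *
        ((chain a 0).M m - ((chain a 0).w1 * (chain a 0).x1 ^ m +
          (chain a 0).w2 * (chain a 0).x2 ^ m)))) atTop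
        (𝓝 (∑ m ∈ Finset.range (r + 4), (tp (-2) 2 (fun _ => 0) S).coeff m * e m)) :=
      tendsto_finsetSum _ fun m _ => (hpc m).mul ((hl 0).em m)
    have h3 : ∑ m ∈ Finset.range (r + 4), (tp (-2) 2 (fun _ => 0) S).coeff m * e m = e 4 := by
      rw [Finset.sum_eq_single 4]
      · rw [tp_lim]
        have : ((X : ℚ[X]) ^ 4 - C 8 * X ^ 2 + C 16).coeff 4 = 1 := by
          rw [coeff_add, coeff_sub, coeff_X_pow, coeff_C_mul, coeff_X_pow, coeff_C]
          norm_num
        rw [this, one_mul]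
      · intro m _ hm
        rcases lt_or_gt_of_ne hm with h | h
        · rw [e_small hl m h, mul_zero]
        · rw [tp_lim]
          have : ((X : ℚ[X]) ^ 4 - C 8 * X ^ 2 + C 16).coeff m = 0 := by
            rw [coeff_add, coeff_sub, coeff_X_pow, coeff_C_mul, coeff_X_pow, coeff_C,
              if_neg (by omega), if_neg (by omega), if_neg (by omega)]
            norm_num
          rw [this, zero_mul]
      · intro h
        exact absurd (Finset.mem_range.2 (by omega)) h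
    rw [h3] at h2
    exact h2
  -- the two node part
  have hprod : ∀ x : ℕ → ℚ, ∀ L : ℚ, Tendsto x atTop (𝓝 L) →
      Tendsto (fun a => ∏ i ∈ S, (1 - (chain a i).eta * x a)) atTop (𝓝 1) := by
    intro x L hx
    have h2 : Tendsto (fun a => ∏ i ∈ S, (1 - (chain a i).eta * x a)) atTop
        (𝓝 (∏ _i ∈ S, (1 : ℚ))) := by
      refine tendsto_finsetProd _ fun i _ => ?_
      have h3 := (((hl i).eta0).mul hx).const_sub 1
      rw [zero_mul, sub_zero] at h3
      exact h3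
    rw [Finset.prod_const_one] at h2
    exact h2
  have k1 : Tendsto (fun a : ℕ => (a : ℚ) ^ 2 * (p a).eval (chain a 0).x1) atTop (𝓝 0) := by
    have g1 := chain_x1 hl r
    have g2 := (((g1.mul (tendsto_zero_of_sq g1)).mul
      (((hl 0).x1.sub (hl r).x2).pow 2)).mul (hprod _ _ (hl 0).x1))
    rw [zero_mul, zero_mul, zero_mul] at g2
    refine g2.congr fun a => ?_
    rw [hp]
    show _ = (a : ℚ) ^ 2 * (tp (chain a r).x1 (chain a r).x2 (fun i => (chain a i).eta) S).eval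
      (chain a 0).x1
    rw [tp_eval]
    ring
  have k2 : Tendsto (fun a : ℕ => (a : ℚ) ^ 2 * (p a).eval (chain a 0).x2) atTop (𝓝 0) := by
    have g1 := chain_x2 hl r
    have g2 := (((g1.mul (tendsto_zero_of_sq g1)).mul
      (((hl 0).x2.sub (hl r).x1).pow 2)).mul (hprod _ _ (hl 0).x2))
    rw [zero_mul, zero_mul, zero_mul] at g2
    refine g2.congr fun a => ?_
    rw [hp]
    show _ = (a : ℚ) ^ 2 * (tp (chain a r).x1 (chain a r).x2 (fun i => (chain a i).eta) S).eval
      (chain a 0).x2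
    rw [tp_eval]
    ring
  have k3 := (((hl 0).w1.mul k1).add ((hl 0).w2.mul k2)).add h1
  have e1 : (1 : ℚ) / 2 * 0 + 1 / 2 * 0 + e 4 = e 4 := by ring
  rw [e1] at k3
  refine k3.congr fun a => ?_
  rw [eval_eq_sum_range' (hdeg a), eval_eq_sum_range' (hdeg a)]
  simp only [Finset.mul_sum]
  rw [← Finset.sum_add_distrib, ← Finset.sum_add_distrib]
  refine Finset.sum_congr rfl fun m _ => ?_
  ring

end chain

/-- The sign of a product. -/
theorem sign_prod (r l : ℕ) (hl : l < r) (f : ℕ → ℚ) (h1 : ∀ i < l, 0 < f i)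
    (h2 : ∀ i, l < i → i < r → f i < 0) :
    0 < (-1) ^ (r - 1 - l) * ∏ i ∈ (Finset.range r).erase l, f i := by
  have h3 : (Finset.range r).erase l = Finset.range l ∪ Finset.Ico (l + 1) r := by
    ext i
    rw [Finset.mem_erase, Finset.mem_range, Finset.mem_union, Finset.mem_range, Finset.mem_Ico]
    omega
  have h4 : Disjoint (Finset.range l) (Finset.Ico (l + 1) r) := by
    rw [Finset.disjoint_left]
    intro i hi hi2
    rw [Finset.mem_range] at hi
    rw [Finset.mem_Ico] at hi2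
    omega
  rw [h3, Finset.prod_union h4]
  have h5 : (-1 : ℚ) ^ (r - 1 - l) * ∏ i ∈ Finset.Ico (l + 1) r, f i =
      ∏ i ∈ Finset.Ico (l + 1) r, (-f i) := by
    have h6 : ∏ i ∈ Finset.Ico (l + 1) r, (-f i) = ∏ i ∈ Finset.Ico (l + 1) r, ((-1) * f i) :=
      Finset.prod_congr rfl fun i _ => by ring
    rw [h6, Finset.prod_mul_distrib, Finset.prod_const, Nat.card_Ico]
    congr 2
    omega
  calc (0 : ℚ) < (∏ i ∈ Finset.range l, f i) * ∏ i ∈ Finset.Ico (l + 1) r, (-f i) := by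
        refine mul_pos (Finset.prod_pos fun i hi => h1 i (Finset.mem_range.1 hi))
          (Finset.prod_pos fun i hi => ?_)
        rw [Finset.mem_Ico] at hi
        have := h2 i (by omega) hi.2
        linarith
    _ = _ := by rw [← h5]; ring

end SqGap
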